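import Pool.Agent.Lib.MP_19b7b8_co_FA.DataT

/-!
# MP_19b7b8_co: the action on codes, the blocks and their invariance
-/

namespace Pool.Agent.T53

open Finset

/-- value of the permutation coded by `p` -/
def pv (p i : ℕ) : ℕ := dg 3 p i

/-- position of a triple -/
noncomputable def idx (a b c : ℕ) : ℕ := dg 5 IDXN (Nat.add (Nat.mul 36 a) (Nat.add (Nat.mul 6 b) c))

/-- the vertices of the triple in position `j` -/
noncomputable def ta (j : ℕ) : ℕ := dg 4 TA j
/-- the vertices of the triple in position `j` -/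
noncomputable def tb (j : ℕ) : ℕ := dg 4 TB j
/-- the vertices of the triple in position `j` -/
noncomputable def tc (j : ℕ) : ℕ := dg 4 TC j

/-- position of the image of the triple in position `j` -/
noncomputable def sel (p j : ℕ) : ℕ := idx (pv p (ta j)) (pv p (tb j)) (pv p (tc j))

/-- the graph seen through the permutation `p` -/
noncomputable def act (p g : ℕ) : ℕ := mk (fun j => bt g (sel p j)) 20

theorem act_lt (p g : ℕ) : act p g < 2 ^ 20 := mk_lt _ _ fun _ _ => bt_lt _ _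

theorem bt_act (p g j : ℕ) (hj : j < 20) : bt (act p g) j = bt g (sel p j) :=
  bt_mk _ 20 (fun _ _ => bt_lt _ _) j hj

/-- a list of positions read in the graph -/
def code (pos : ℕ → ℕ) (m g : ℕ) : ℕ := mk (fun i => bt g (pos i)) m

theorem code_lt (pos : ℕ → ℕ) (m g : ℕ) : code pos m g < 2 ^ m := mk_lt _ _ fun _ _ => bt_lt _ _

theorem code_act (pos : ℕ → ℕ) (m p g : ℕ) (hpos : ∀ i < m, pos i < 20) :
    code pos m (act p g) = mk (fun i => bt g (sel p (pos i))) m :=
  mk_congr fun i hi => bt_act p g _ (hpos i hi)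

/-- permutation of bits -/
def pm (a : ℕ → ℕ) (m c : ℕ) : ℕ := mk (fun i => bt c (a i)) m

theorem code_act_pm (pos a : ℕ → ℕ) (m p g : ℕ) (hpos : ∀ i < m, pos i < 20)
    (ha : ∀ i < m, a i < m) (h : ∀ i < m, sel p (pos i) = pos (a i)) :
    code pos m (act p g) = pm a m (code pos m g) := by
  rw [code_act pos m p g hpos]
  refine mk_congr fun i hi => ?_
  rw [h i hi]
  exact (bt_mk (fun i => bt g (pos i)) m (fun _ _ => bt_lt _ _) (a i) (ha i hi)).symm

/-- positions read by the blocks -/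
noncomputable def post (i : ℕ) : ℕ := dg 5 POST i
/-- positions read by the blocks -/
noncomputable def posf (i : ℕ) : ℕ := dg 5 POSF i
/-- positions read by the blocks -/
noncomputable def posg (i : ℕ) : ℕ := dg 5 POSG i
/-- positions read by the blocks -/
noncomputable def pos8 (i : ℕ) : ℕ := dg 5 POS8 i
/-- positions read by the blocks -/
noncomputable def pos5 (i : ℕ) : ℕ := dg 5 POS5 i

/-- index of a graph in the table of type 4 -/
noncomputable def code16 (g : ℕ) : ℕ := code post 4 g + 16 * code posf 6 g + 1024 * code posg 6 g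

/-- the block of type 4 -/
noncomputable def h4 (g : ℕ) : ℕ := tt (code16 g)
/-- the block of type 2 -/
noncomputable def h2 (g : ℕ) : ℕ := dg 32 T2 (code pos8 8 g)
/-- the block of first order -/
noncomputable def h1 (g : ℕ) : ℕ := dg 32 T1 (code pos5 5 g)

/-- the permutations of the blocks -/
noncomputable def p4 (k : ℕ) : ℕ := dg 18 PL4 k
/-- the permutations of the blocks -/
noncomputable def p2 (k : ℕ) : ℕ := dg 18 PL2 k
/-- the permutations of the blocks -/
noncomputable def p1 (k : ℕ) : ℕ := dg 18 PL1 k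
/-- the adjacent transpositions -/
noncomputable def pg (k : ℕ) : ℕ := dg 18 PLG k
/-- symmetries of the blocks -/
noncomputable def r4 (k : ℕ) : ℕ := dg 18 RL4 k
/-- symmetries of the blocks -/
noncomputable def r2 (k : ℕ) : ℕ := dg 18 RL2 k
/-- symmetries of the blocks -/
noncomputable def r1 (k : ℕ) : ℕ := dg 18 RL1 k

/-- sum of a block over its permutations -/
noncomputable def blk (h : ℕ → ℕ) (p : ℕ → ℕ) (n g : ℕ) : ℕ := ∑ k ∈ range n, h (act (p k) g)

/-- the total of the blocks -/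
noncomputable def FF (g : ℕ) : ℕ := blk h4 p4 15 g + blk h2 p2 45 g + blk h1 p1 60 g

/-- number of edges -/
def dN (g : ℕ) : ℕ := ∑ j ∈ range 20, bt g j

/-- the triple in position `j` avoids the vertex `v` -/
noncomputable def inFS (v j : ℕ) : Bool :=
  !(Nat.beq (ta j) v) && (!(Nat.beq (tb j) v) && !(Nat.beq (tc j) v))

/-- every 5-set contains an edge -/
def Valid (g : ℕ) : Prop := ∀ v < 6, ∃ j < 20, inFS v j = true ∧ bt g j = 1

/-! ### checks on positions -/

theorem ck_sel_lt : allN (fun s => allN (fun j => Nat.ble (Nat.add (sel (pg s) j) 1) 20) 20) 5 = true := by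
  decide +kernel

theorem ck_sel_invol : allN (fun s => allN (fun j => Nat.beq (sel (pg s) (sel (pg s) j)) j) 20) 5 = true := by
  decide +kernel

theorem ck_fs : allN (fun s => allN (fun v => allN (fun j =>
    (!(inFS (pv (pg s) v) j)) || inFS v (sel (pg s) j)) 20) 6) 5 = true := by
  decide +kernel

theorem ck_pg_lt : allN (fun s => allN (fun v => Nat.ble (Nat.add (pv (pg s) v) 1) 6) 6) 5 = true := by
  decide +kernel

theorem sel_lt {s j : ℕ} (hs : s < 5) (hj : j < 20) : sel (pg s) j < 20 := by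
  have := (allN_iff _ _).1 ((allN_iff _ _).1 ck_sel_lt s hs) j hj
  exact Nat.le_of_ble_eq_true this

theorem sel_invol {s j : ℕ} (hs : s < 5) (hj : j < 20) : sel (pg s) (sel (pg s) j) = j := by
  have := (allN_iff _ _).1 ((allN_iff _ _).1 ck_sel_invol s hs) j hj
  exact Nat.eq_of_beq_eq_true this

theorem dN_act {s : ℕ} (hs : s < 5) (g : ℕ) : dN (act (pg s) g) = dN g := by
  unfold dN
  rw [sum_congr rfl fun j hj => bt_act (pg s) g j (mem_range.1 hj)]
  refine sum_nbij' (sel (pg s)) (sel (pg s)) ?_ ?_ ?_ ?_ ?_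
  · intro j hj; exact mem_range.2 (sel_lt hs (mem_range.1 hj))
  · intro j hj; exact mem_range.2 (sel_lt hs (mem_range.1 hj))
  · intro j hj; exact sel_invol hs (mem_range.1 hj)
  · intro j hj; exact sel_invol hs (mem_range.1 hj)
  · intro j _; rfl

theorem valid_act {s : ℕ} (hs : s < 5) {g : ℕ} (hg : Valid g) : Valid (act (pg s) g) := by
  intro v hv
  have hv' : pv (pg s) v < 6 := by
    have := (allN_iff _ _).1 ((allN_iff _ _).1 ck_pg_lt s hs) v hv
    exact Nat.le_of_ble_eq_true this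
  obtain ⟨j, hj, h1, h2⟩ := hg _ hv'
  refine ⟨sel (pg s) j, sel_lt hs hj, ?_, ?_⟩
  · have := (allN_iff _ _).1 ((allN_iff _ _).1 ((allN_iff _ _).1 ck_fs s hs) v hv) j hj
    rw [h1] at this
    simpa using this
  · rw [bt_act _ _ _ (sel_lt hs hj), sel_invol hs hj, h2]

/-! ### invariance of a block -/

/-- the general statement: `ka` is the packed permutation data -/
theorem blk_act (h : ℕ → ℕ) (p r : ℕ → ℕ) (n : ℕ) (ka : ℕ → ℕ → ℕ) (nr : ℕ)
    (hr : ∀ a < nr, ∀ g, h (act (r a) g) = h g) (s : ℕ)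
    (hk : ∀ k < n, ka s k % 64 < n ∧ ka s k / 64 < nr ∧ ka s (ka s k % 64) % 64 = k ∧
      ∀ j < 20, sel (r (ka s k / 64)) j < 20 ∧ sel (p k) j < 20 ∧
        sel (pg s) (sel (p k) j) = sel (p (ka s k % 64)) (sel (r (ka s k / 64)) j))
    (g : ℕ) : blk h p n (act (pg s) g) = blk h p n g := by
  unfold blk
  have h1 : ∀ k ∈ range n, h (act (p k) (act (pg s) g)) = h (act (p (ka s k % 64)) g) := by
    intro k hk'
    obtain ⟨_, h2, _, h3⟩ := hk k (mem_range.1 hk')
    rw [← hr _ h2 (act (p (ka s k % 64)) g)]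
    congr 1
    refine eq_of_bt 20 _ _ (act_lt _ _) (act_lt _ _) fun j hj => ?_
    obtain ⟨h4, h5, h6⟩ := h3 j hj
    rw [bt_act _ _ _ hj, bt_act _ _ _ h5, bt_act _ _ _ hj, bt_act _ _ _ h4, h6]
  rw [sum_congr rfl h1]
  refine sum_nbij' (fun k => ka s k % 64) (fun k => ka s k % 64) ?_ ?_ ?_ ?_ ?_
  · intro k hk'; exact mem_range.2 (hk k (mem_range.1 hk')).1
  · intro k hk'; exact mem_range.2 (hk k (mem_range.1 hk')).1
  · intro k hk'; exact (hk k (mem_range.1 hk')).2.2.1
  · intro k hk'; exact (hk k (mem_range.1 hk')).2.2.1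
  · intro k _; rfl

/-- check of the data of a block -/
noncomputable def ckB (p r : ℕ → ℕ) (n nr : ℕ) (ka : ℕ → ℕ → ℕ) : Bool :=
  allN (fun s => allN (fun k =>
    (Nat.ble (Nat.add (Nat.mod (ka s k) 64) 1) n) && ((Nat.ble (Nat.add (Nat.div (ka s k) 64) 1) nr) &&
    ((Nat.beq (Nat.mod (ka s (Nat.mod (ka s k) 64)) 64) k) &&
    allN (fun j => (Nat.ble (Nat.add (sel (r (Nat.div (ka s k) 64)) j) 1) 20) &&
      ((Nat.ble (Nat.add (sel (p k) j) 1) 20) &&
      (Nat.beq (sel (pg s) (sel (p k) j))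
        (sel (p (Nat.mod (ka s k) 64)) (sel (r (Nat.div (ka s k) 64)) j))))) 20))) n) 5

theorem ckB_spec {p r : ℕ → ℕ} {n nr : ℕ} {ka : ℕ → ℕ → ℕ} (h : ckB p r n nr ka = true)
    (s : ℕ) (hs : s < 5) :
    ∀ k < n, ka s k % 64 < n ∧ ka s k / 64 < nr ∧ ka s (ka s k % 64) % 64 = k ∧
      ∀ j < 20, sel (r (ka s k / 64)) j < 20 ∧ sel (p k) j < 20 ∧
        sel (pg s) (sel (p k) j) = sel (p (ka s k % 64)) (sel (r (ka s k / 64)) j) := by
  intro k hk
  have h1 := (allN_iff _ _).1 ((allN_iff _ _).1 h s hs) k hk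
  simp only [Bool.and_eq_true] at h1
  obtain ⟨h2, h3, h4, h5⟩ := h1
  refine ⟨Nat.le_of_ble_eq_true h2, Nat.le_of_ble_eq_true h3, Nat.eq_of_beq_eq_true h4, ?_⟩
  intro j hj
  have h6 := (allN_iff _ _).1 h5 j hj
  simp only [Bool.and_eq_true] at h6
  exact ⟨Nat.le_of_ble_eq_true h6.1, Nat.le_of_ble_eq_true h6.2.1, Nat.eq_of_beq_eq_true h6.2.2⟩

/-- packed permutation data -/
noncomputable def ka4 (s k : ℕ) : ℕ := dg 16 KA4 (Nat.add (Nat.mul 15 s) k)
/-- packed permutation data -/
noncomputable def ka2 (s k : ℕ) : ℕ := dg 16 KA2 (Nat.add (Nat.mul 45 s) k)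
/-- packed permutation data -/
noncomputable def ka1 (s k : ℕ) : ℕ := dg 16 KA1 (Nat.add (Nat.mul 60 s) k)

theorem ckB4 : ckB p4 r4 15 5 ka4 = true := by decide +kernel
theorem ckB2 : ckB p2 r2 45 5 ka2 = true := by decide +kernel
theorem ckB1 : ckB p1 r1 60 4 ka1 = true := by decide +kernel

end Pool.Agent.T53
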