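import Mathlib

/-!
# MP_19b7b8_co (the Turan density t(5,3)): digits, bits and the action of permutations on codes

A labelled 3-graph on 6 vertices is coded by a number below 2^20; the position of the triple
`{a,b,c}` is `idx a b c`, the triple in position `j` is `(dg 4 TA j, dg 4 TB j, dg 4 TC j)`.
A permutation of `{0,...,5}` is coded by a number with base-8 digits.
-/

namespace Pool.Agent.T53

open Finset

/-- the `k`-th digit of `n` in base `2^w` -/
def dg (w n k : ℕ) : ℕ := Nat.land (Nat.shiftRight n (Nat.mul w k)) (Nat.sub (Nat.pow 2 w) 1)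

/-- the `k`-th bit of `n` -/
def bt (n k : ℕ) : ℕ := Nat.land (Nat.shiftRight n k) 1

theorem dg_eq (w n k : ℕ) : dg w n k = n / (2 ^ w) ^ k % 2 ^ w := by
  unfold dg
  show (n >>> (w * k)) &&& (2 ^ w - 1) = _
  rw [Nat.and_two_pow_sub_one_eq_mod, Nat.shiftRight_eq_div_pow, pow_mul]

theorem bt_eq (n k : ℕ) : bt n k = n / 2 ^ k % 2 := by
  unfold bt
  show (n >>> k) &&& 1 = _
  rw [Nat.and_one_is_mod, Nat.shiftRight_eq_div_pow]

theorem dg_lt (w n k : ℕ) : dg w n k < 2 ^ w := by
  rw [dg_eq]; exact Nat.mod_lt _ (by positivity)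

theorem bt_lt (n k : ℕ) : bt n k < 2 := by
  rw [bt_eq]; exact Nat.mod_lt _ (by norm_num)

theorem bt_le (n k : ℕ) : bt n k ≤ 1 := Nat.lt_succ_iff.1 (bt_lt n k)

/-- digits of a number given in base `B` -/
theorem dig_lt (B : ℕ) (d : ℕ → ℕ) (m : ℕ) (hd : ∀ i < m, d i < B) :
    ∑ j ∈ range m, d j * B ^ j < B ^ m := by
  induction m with
  | zero => simp
  | succ m ih =>
    rw [sum_range_succ, pow_succ]
    have h1 := ih fun i hi => hd i (by omega)
    have h2 : d m + 1 ≤ B := hd m (by omega)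
    calc _ < B ^ m + d m * B ^ m := by omega
      _ = (d m + 1) * B ^ m := by ring
      _ ≤ B * B ^ m := Nat.mul_le_mul_right _ h2
      _ = B ^ m * B := mul_comm _ _

theorem dig_get (B : ℕ) (d : ℕ → ℕ) (m : ℕ) (hd : ∀ i < m, d i < B) (i : ℕ) (hi : i < m) :
    (∑ j ∈ range m, d j * B ^ j) / B ^ i % B = d i := by
  have hB : 0 < B := by have := hd i hi; omega
  induction m with
  | zero => omega
  | succ m ih =>
    rw [sum_range_succ]
    have h1 := dig_lt B d m fun j hj => hd j (by omega)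
    rcases Nat.lt_succ_iff_lt_or_eq.1 hi with h | h
    · have h2 : d m * B ^ m = (d m * B ^ (m - i)) * B ^ i := by
        rw [mul_assoc, ← pow_add, Nat.sub_add_cancel h.le]
      rw [h2, Nat.add_mul_div_right _ _ (pow_pos hB i)]
      have h3 : d m * B ^ (m - i) = d m * B ^ (m - i - 1) * B := by
        rw [mul_assoc, ← pow_succ]; congr 2; omega
      rw [h3, Nat.add_mul_mod_self_right]
      exact ih (fun j hj => hd j (by omega)) h
    · subst h
      rw [Nat.add_mul_div_right _ _ (pow_pos hB i), Nat.div_eq_of_lt h1, zero_add]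
      exact Nat.mod_eq_of_lt (hd i (by omega))

theorem dig_expand (B : ℕ) (hB : 0 < B) (m n : ℕ) (hn : n < B ^ m) :
    n = ∑ k ∈ range m, n / B ^ k % B * B ^ k := by
  induction m generalizing n with
  | zero => simp at hn ⊢; exact hn
  | succ m ih =>
    rw [sum_range_succ]
    have h1 : n % B ^ m < B ^ m := Nat.mod_lt _ (pow_pos hB m)
    have h2 : n / B ^ m < B := by
      rw [Nat.div_lt_iff_lt_mul (pow_pos hB m)]; rw [pow_succ] at hn; linarith [mul_comm (B ^ m) B]
    have h3 := ih (n % B ^ m) h1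
    have h4 : ∀ k ∈ range m, n % B ^ m / B ^ k % B * B ^ k = n / B ^ k % B * B ^ k := by
      intro k hk
      have hk' : k < m := mem_range.1 hk
      congr 1
      have : B ^ m = B ^ k * B ^ (m - k) := by rw [← pow_add]; congr 1; omega
      rw [this, Nat.mod_mul_right_div_self]
      have h5 : B ∣ B ^ (m - k) := dvd_pow_self _ (by omega)
      exact Nat.mod_mod_of_dvd _ h5
    rw [sum_congr rfl h4] at h3
    rw [← h3, Nat.mod_eq_of_lt h2]
    have := Nat.div_add_mod n (B ^ m)
    rw [mul_comm] at this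
    omega

/-- the number with the given bits -/
def mk (b : ℕ → ℕ) (m : ℕ) : ℕ := Nat.rec 0 (fun k ih => Nat.add ih (Nat.mul (b k) (Nat.pow 2 k))) m

theorem mk_eq (b : ℕ → ℕ) (m : ℕ) : mk b m = ∑ i ∈ range m, b i * 2 ^ i := by
  induction m with
  | zero => rfl
  | succ m ih => rw [sum_range_succ, ← ih]; rfl

theorem mk_congr {b b' : ℕ → ℕ} {m : ℕ} (h : ∀ i < m, b i = b' i) : mk b m = mk b' m := by
  rw [mk_eq, mk_eq]
  exact sum_congr rfl fun i hi => by rw [h i (mem_range.1 hi)]

theorem mk_lt (b : ℕ → ℕ) (m : ℕ) (hb : ∀ i < m, b i < 2) : mk b m < 2 ^ m := by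
  rw [mk_eq]; exact dig_lt 2 b m hb

theorem bt_mk (b : ℕ → ℕ) (m : ℕ) (hb : ∀ i < m, b i < 2) (i : ℕ) (hi : i < m) :
    bt (mk b m) i = b i := by
  rw [bt_eq, mk_eq]; exact dig_get 2 b m hb i hi

theorem mk_bt (m n : ℕ) (hn : n < 2 ^ m) : mk (bt n) m = n := by
  rw [mk_eq]
  conv_rhs => rw [dig_expand 2 (by norm_num) m n hn]
  exact sum_congr rfl fun i _ => by rw [bt_eq]

theorem mk_add (b : ℕ → ℕ) (m n : ℕ) :
    mk b (m + n) = mk b m + 2 ^ m * mk (fun i => b (m + i)) n := by
  rw [mk_eq, mk_eq, mk_eq, sum_range_add, mul_sum]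
  congr 1
  exact sum_congr rfl fun i _ => by rw [pow_add]; ring

/-- two numbers below `2^m` with the same bits are equal -/
theorem eq_of_bt (m a b : ℕ) (ha : a < 2 ^ m) (hb : b < 2 ^ m) (h : ∀ i < m, bt a i = bt b i) :
    a = b := by
  rw [← mk_bt m a ha, ← mk_bt m b hb]; exact mk_congr h

/-- bounded universal quantifier -/
def allN (f : ℕ → Bool) (n : ℕ) : Bool := Nat.rec true (fun k ih => Bool.and (f k) ih) n

theorem allN_iff (f : ℕ → Bool) (n : ℕ) : allN f n = true ↔ ∀ k < n, f k = true := by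
  induction n with
  | zero => simp [allN]
  | succ n ih =>
    have : allN f (n + 1) = (f n && allN f n) := rfl
    rw [this, Bool.and_eq_true, ih]
    constructor
    · rintro ⟨h1, h2⟩ k hk
      rcases Nat.lt_succ_iff_lt_or_eq.1 hk with h | h
      · exact h2 k h
      · rw [h]; exact h1
    · intro h
      exact ⟨h n (by omega), fun k hk => h k (by omega)⟩

/-- bounded existential quantifier -/
def anyN (f : ℕ → Bool) (n : ℕ) : Bool := Nat.rec false (fun k ih => Bool.or (f k) ih) n

theorem anyN_iff (f : ℕ → Bool) (n : ℕ) : anyN f n = true ↔ ∃ k < n, f k = true := by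
  induction n with
  | zero => simp [anyN]
  | succ n ih =>
    have : anyN f (n + 1) = (f n || anyN f n) := rfl
    rw [this, Bool.or_eq_true, ih]
    constructor
    · rintro (h | ⟨k, hk, h⟩)
      · exact ⟨n, by omega, h⟩
      · exact ⟨k, by omega, h⟩
    · rintro ⟨k, hk, h⟩
      rcases Nat.lt_succ_iff_lt_or_eq.1 hk with h' | h'
      · exact Or.inr ⟨k, h', h⟩
      · left; rw [← h']; exact h

/-- bounded sum -/
def sumN (f : ℕ → ℕ) (n : ℕ) : ℕ := Nat.rec 0 (fun k ih => Nat.add ih (f k)) n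

theorem sumN_eq (f : ℕ → ℕ) (n : ℕ) : sumN f n = ∑ i ∈ range n, f i := by
  induction n with
  | zero => rfl
  | succ n ih => rw [sum_range_succ, ← ih]; rfl

end Pool.Agent.T53
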