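import Pool.Agent.Lib.MP_19b7b8_co_FA.Exp

/-!
# MP_19b7b8_co: the expectations of the blocks and the bound for regular weights
-/

namespace Pool.Agent.T53

open Finset

variable {V : Type*} [Fintype V]

theorem okP4 : allN (fun k => okP (p4 k)) 15 = true := by decide +kernel
theorem okP2 : allN (fun k => okP (p2 k)) 45 = true := by decide +kernel
theorem okP1 : allN (fun k => okP (p1 k)) 60 = true := by decide +kernel

/-- permutations moving the triple `{0,1,2}` to the position `j` -/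
noncomputable def p0 (j : ℕ) : ℕ := dg 18 PL0 j

theorem okP0 : allN (fun k => Bool.and (okP (p0 k)) (Nat.beq (sel (p0 k) 19) k)) 20 = true := by
  decide +kernel

theorem Ev_blk (w : V → ℝ) {c : V → V → V → Bool} (hc : Sys c) (h p : ℕ → ℕ) (n : ℕ)
    (hp : allN (fun k => okP (p k)) n = true) :
    Ev w (fun X => (blk h p n (gX c X) : ℝ)) = n * Ev w (fun X => (h (gX c X) : ℝ)) := by
  unfold blk
  have e : (fun X : Fin 6 → V => ((∑ k ∈ range n, h (act (p k) (gX c X)) : ℕ) : ℝ)) =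
      fun X => ∑ k ∈ range n, ((h (act (p k) (gX c X)) : ℕ) : ℝ) := by
    funext X; push_cast; rfl
  rw [e, Ev_sum, sum_congr rfl fun k hk => Ev_act w hc (fun g => (h g : ℝ))
    ((allN_iff _ _).1 hp k (mem_range.1 hk))]
  rw [sum_const, card_range, nsmul_eq_mul]

theorem swap2 (s : Finset ℕ) (F : ℕ → V → V → ℝ) :
    ∑ j ∈ s, ∑ a, ∑ b, F j a b = ∑ a, ∑ b, ∑ j ∈ s, F j a b := by
  rw [sum_comm]
  exact sum_congr rfl fun a _ => sum_comm

theorem swap4 (s : Finset ℕ) (F : ℕ → V → V → V → V → ℝ) :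
    ∑ j ∈ s, ∑ a, ∑ b, ∑ c, ∑ d, F j a b c d = ∑ a, ∑ b, ∑ c, ∑ d, ∑ j ∈ s, F j a b c d := by
  rw [sum_comm]
  refine sum_congr rfl fun a _ => ?_
  rw [sum_comm]
  refine sum_congr rfl fun b _ => ?_
  exact swap2 s _

/-! ### the block of type 4 -/

omit [Fintype V] in
theorem h4_six (c : V → V → V → Bool) (x0 x1 x2 x3 x4 x5 : V) :
    (h4 (gX c ![x0, x1, x2, x3, x4, x5]) : ℝ) = 268435456 + ∑ j ∈ range 7,
      (RV (n4 (c x0 x1 x2) (c x0 x1 x3) (c x0 x2 x3) (c x1 x2 x3)) j (pat c x0 x1 x2 x3 x4) : ℝ) *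
      (RV (n4 (c x0 x1 x2) (c x0 x1 x3) (c x0 x2 x3) (c x1 x2 x3)) j (pat c x0 x1 x2 x3 x5) : ℝ) := by
  unfold h4 code16
  rw [code_post, code_posf, code_posg]
  have h := gram4 (n4 (c x0 x1 x2) (c x0 x1 x3) (c x0 x2 x3) (c x1 x2 x3)) (pat c x0 x1 x2 x3 x4)
    (pat c x0 x1 x2 x3 x5) (n4_lt _ _ _ _) (pat_lt _ _ _ _ _ _) (pat_lt _ _ _ _ _ _)
  generalize n4 (c x0 x1 x2) (c x0 x1 x3) (c x0 x2 x3) (c x1 x2 x3) = t at *
  generalize pat c x0 x1 x2 x3 x4 = f at *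
  generalize pat c x0 x1 x2 x3 x5 = f' at *
  exact_mod_cast congrArg (fun z : ℤ => (z : ℝ)) h

theorem Ev_h4 (w : V → ℝ) (hw : ∀ x, 0 ≤ w x) (hs : ∑ x, w x = 1) (c : V → V → V → Bool) :
    268435456 ≤ Ev w (fun X => (h4 (gX c X) : ℝ)) := by
  have h : Ev w (fun X => (h4 (gX c X) : ℝ)) = 268435456 + ∑ x0, ∑ x1, ∑ x2, ∑ x3,
      w x0 * (w x1 * (w x2 * w x3)) * ∑ j ∈ range 7, (∑ x, w x *
        (RV (n4 (c x0 x1 x2) (c x0 x1 x3) (c x0 x2 x3) (c x1 x2 x3)) j (pat c x0 x1 x2 x3 x) : ℝ)) ^ 2 := by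
    have e1 := Ev_six w (fun X => (h4 (gX c X) : ℝ))
    have e2 : (268435456 : ℝ) = ∑ x0, ∑ x1, ∑ x2, ∑ x3, ∑ x4, ∑ x5,
        w x0 * (w x1 * (w x2 * (w x3 * (w x4 * w x5)))) * 268435456 := by
      rw [← Ev_six w fun _ => (268435456 : ℝ), Ev_one w hs]
    rw [e1]
    conv_rhs => rw [e2]
    simp only [← sum_add_distrib]
    refine sum_congr rfl fun x0 _ => sum_congr rfl fun x1 _ => sum_congr rfl fun x2 _ =>
      sum_congr rfl fun x3 _ => ?_
    generalize hR : (fun j x => (RV (n4 (c x0 x1 x2) (c x0 x1 x3) (c x0 x2 x3) (c x1 x2 x3)) j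
      (pat c x0 x1 x2 x3 x) : ℝ)) = R
    have hR' (j : ℕ) (x : V) : (RV (n4 (c x0 x1 x2) (c x0 x1 x3) (c x0 x2 x3) (c x1 x2 x3)) j
      (pat c x0 x1 x2 x3 x) : ℝ) = R j x := by rw [← hR]
    simp only [h4_six, hR']
    have e3 : ∑ j ∈ range 7, (∑ x, w x * R j x) ^ 2 =
        ∑ x4, ∑ x5, ∑ j ∈ range 7, w x4 * R j x4 * (w x5 * R j x5) := by
      rw [← swap2]
      refine sum_congr rfl fun j _ => ?_
      rw [pow_two, sum_mul]
      exact sum_congr rfl fun x4 _ => by rw [mul_sum]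
    rw [e3, mul_sum, ← sum_add_distrib]
    refine sum_congr rfl fun x4 _ => ?_
    rw [mul_sum, ← sum_add_distrib]
    refine sum_congr rfl fun x5 _ => ?_
    rw [mul_add, mul_sum, mul_sum]
    congr 1
    exact sum_congr rfl fun j _ => by ring
  rw [h]
  have : 0 ≤ ∑ x0, ∑ x1, ∑ x2, ∑ x3,
      w x0 * (w x1 * (w x2 * w x3)) * ∑ j ∈ range 7, (∑ x, w x *
        (RV (n4 (c x0 x1 x2) (c x0 x1 x3) (c x0 x2 x3) (c x1 x2 x3)) j (pat c x0 x1 x2 x3 x) : ℝ)) ^ 2 :=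
    sum_nonneg fun x0 _ => sum_nonneg fun x1 _ => sum_nonneg fun x2 _ => sum_nonneg fun x3 _ =>
      mul_nonneg (mul_nonneg (hw _) (mul_nonneg (hw _) (mul_nonneg (hw _) (hw _))))
        (sum_nonneg fun j _ => sq_nonneg _)
  linarith

/-! ### the block of type 2 -/

/-- entries of the vectors of the block of type 2, shifted by `2^14` -/
noncomputable def rw2 (j f : ℕ) : ℕ := dg 16 V2 (Nat.add (Nat.mul 16 j) f)

theorem ckG2 : allN (fun f => allN (fun f' =>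
  Nat.beq (Nat.add (dg 32 T2 (Nat.add f (Nat.mul 16 f')))
      (Nat.mul 16384 (sumN (fun j => Nat.add (rw2 j f) (rw2 j f')) 2)))
    (Nat.add (sumN (fun j => Nat.mul (rw2 j f) (rw2 j f')) 2) (Nat.add 536870912 67108864))) 16) 16
    = true := by decide +kernel

/-- entries of the vectors -/
noncomputable def RW (j f : ℕ) : ℤ := (rw2 j f : ℤ) - 16384

theorem gram2 (f f' : ℕ) (hf : f < 16) (hf' : f' < 16) :
    (dg 32 T2 (f + 16 * f') : ℤ) = 67108864 + ∑ j ∈ range 2, RW j f * RW j f' := by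
  have h := (allN_iff _ _).1 ((allN_iff _ _).1 ckG2 f hf) f' hf'
  have h1 := Nat.eq_of_beq_eq_true h
  rw [sumN_eq, sumN_eq] at h1
  have h2 : (dg 32 T2 (f + 16 * f') + 16384 * ∑ j ∈ range 2, (rw2 j f + rw2 j f') : ℕ) =
      ∑ j ∈ range 2, rw2 j f * rw2 j f' + (536870912 + 67108864) := h1
  have h3 : ((dg 32 T2 (f + 16 * f') : ℕ) : ℤ) +
      16384 * ∑ j ∈ range 2, ((rw2 j f : ℤ) + (rw2 j f' : ℤ)) =
      ∑ j ∈ range 2, (rw2 j f : ℤ) * (rw2 j f' : ℤ) + (536870912 + 67108864) := by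
    exact_mod_cast h2
  have h4 : ∑ j ∈ range 2, RW j f * RW j f' = ∑ j ∈ range 2, (rw2 j f : ℤ) * (rw2 j f' : ℤ) -
      16384 * ∑ j ∈ range 2, ((rw2 j f : ℤ) + (rw2 j f' : ℤ)) + 2 * 16384 ^ 2 := by
    simp only [RW, sum_range_succ, sum_range_zero]
    ring
  rw [h4]
  linarith

omit [Fintype V] in
theorem h2_six (c : V → V → V → Bool) (x0 x1 x2 x3 x4 x5 : V) :
    (h2 (gX c ![x0, x1, x2, x3, x4, x5]) : ℝ) = 67108864 + ∑ j ∈ range 2,
      (RW j (n4 (c x0 x1 x2) (c x0 x1 x3) (c x0 x2 x3) (c x1 x2 x3)) : ℝ) *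
      (RW j (n4 (c x0 x1 x4) (c x0 x1 x5) (c x0 x4 x5) (c x1 x4 x5)) : ℝ) := by
  unfold h2
  rw [code_pos8]
  have h := gram2 (n4 (c x0 x1 x2) (c x0 x1 x3) (c x0 x2 x3) (c x1 x2 x3))
    (n4 (c x0 x1 x4) (c x0 x1 x5) (c x0 x4 x5) (c x1 x4 x5)) (n4_lt _ _ _ _) (n4_lt _ _ _ _)
  generalize n4 (c x0 x1 x2) (c x0 x1 x3) (c x0 x2 x3) (c x1 x2 x3) = f at *
  generalize n4 (c x0 x1 x4) (c x0 x1 x5) (c x0 x4 x5) (c x1 x4 x5) = f' at *
  exact_mod_cast congrArg (fun z : ℤ => (z : ℝ)) h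

theorem Ev_h2 (w : V → ℝ) (hw : ∀ x, 0 ≤ w x) (hs : ∑ x, w x = 1) (c : V → V → V → Bool) :
    67108864 ≤ Ev w (fun X => (h2 (gX c X) : ℝ)) := by
  have h : Ev w (fun X => (h2 (gX c X) : ℝ)) = 67108864 + ∑ x0, ∑ x1,
      w x0 * w x1 * ∑ j ∈ range 2, (∑ x, ∑ y, w x * w y *
        (RW j (n4 (c x0 x1 x) (c x0 x1 y) (c x0 x y) (c x1 x y)) : ℝ)) ^ 2 := by
    have e1 := Ev_six w (fun X => (h2 (gX c X) : ℝ))
    have e2 : (67108864 : ℝ) = ∑ x0, ∑ x1, ∑ x2, ∑ x3, ∑ x4, ∑ x5,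
        w x0 * (w x1 * (w x2 * (w x3 * (w x4 * w x5)))) * 67108864 := by
      rw [← Ev_six w fun _ => (67108864 : ℝ), Ev_one w hs]
    rw [e1]
    conv_rhs => rw [e2]
    simp only [← sum_add_distrib]
    refine sum_congr rfl fun x0 _ => sum_congr rfl fun x1 _ => ?_
    generalize hR : (fun j x y => (RW j (n4 (c x0 x1 x) (c x0 x1 y) (c x0 x y) (c x1 x y)) : ℝ)) = R
    have hR' (j : ℕ) (x y : V) : (RW j (n4 (c x0 x1 x) (c x0 x1 y) (c x0 x y) (c x1 x y)) : ℝ) =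
      R j x y := by rw [← hR]
    simp only [h2_six, hR']
    have e3 : ∑ j ∈ range 2, (∑ x, ∑ y, w x * w y * R j x y) ^ 2 =
        ∑ x2, ∑ x3, ∑ x4, ∑ x5, ∑ j ∈ range 2, w x2 * w x3 * R j x2 x3 * (w x4 * w x5 * R j x4 x5) := by
      rw [← swap4]
      refine sum_congr rfl fun j _ => ?_
      rw [pow_two, sum_mul]
      refine sum_congr rfl fun x2 _ => ?_
      rw [sum_mul]
      refine sum_congr rfl fun x3 _ => ?_
      rw [mul_sum]
      exact sum_congr rfl fun x4 _ => by rw [mul_sum]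
    rw [e3, mul_sum, ← sum_add_distrib]
    refine sum_congr rfl fun x2 _ => ?_
    rw [mul_sum, ← sum_add_distrib]
    refine sum_congr rfl fun x3 _ => ?_
    rw [mul_sum, ← sum_add_distrib]
    refine sum_congr rfl fun x4 _ => ?_
    rw [mul_sum, ← sum_add_distrib]
    refine sum_congr rfl fun x5 _ => ?_
    rw [mul_add, mul_sum, mul_sum]
    congr 1
    exact sum_congr rfl fun j _ => by ring
  rw [h]
  have : 0 ≤ ∑ x0, ∑ x1,
      w x0 * w x1 * ∑ j ∈ range 2, (∑ x, ∑ y, w x * w y *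
        (RW j (n4 (c x0 x1 x) (c x0 x1 y) (c x0 x y) (c x1 x y)) : ℝ)) ^ 2 :=
    sum_nonneg fun x0 _ => sum_nonneg fun x1 _ =>
      mul_nonneg (mul_nonneg (hw _) (hw _)) (sum_nonneg fun j _ => sq_nonneg _)
  linarith

/-! ### the first order block -/

/-- the multiplier of a pattern -/
noncomputable def mm (f : ℕ) : ℤ := (dg 32 MM f : ℤ) - 67108864

theorem ckM1 : allN (fun f => Bool.and (Bool.and
    (Nat.beq (Nat.add (dg 32 T1 (Nat.mul 2 f)) (Nat.mul 579 (dg 32 MM f))) (Nat.mul 580 67108864))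
    (Nat.beq (Nat.add (dg 32 T1 (Nat.add 1 (Nat.mul 2 f))) (Nat.mul 1920 67108864))
      (Nat.mul 1921 (dg 32 MM f)))) (Nat.ble (dg 32 MM f) (Nat.add 67108864 2400))) 16 = true := by
  decide +kernel

theorem h1_val (e : Bool) (f : ℕ) (hf : f < 16) :
    (dg 32 T1 (e.toNat + 2 * f) : ℤ) = 67108864 + (2500 * (e.toNat : ℤ) - 579) * mm f := by
  have h := (allN_iff _ _).1 ckM1 f hf
  simp only [Bool.and_eq_true] at h
  obtain ⟨⟨h1, h2⟩, _⟩ := h
  have h1' : dg 32 T1 (2 * f) + 579 * dg 32 MM f = 580 * 67108864 := Nat.eq_of_beq_eq_true h1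
  have h2' : dg 32 T1 (1 + 2 * f) + 1920 * 67108864 = 1921 * dg 32 MM f := Nat.eq_of_beq_eq_true h2
  unfold mm
  cases e
  · simp only [Bool.toNat_false, zero_add, Nat.cast_zero, mul_zero]
    have : ((dg 32 T1 (2 * f) : ℕ) : ℤ) + 579 * (dg 32 MM f : ℤ) = 580 * 67108864 := by exact_mod_cast h1'
    linarith
  · simp only [Bool.toNat_true, Nat.cast_one, mul_one]
    have : ((dg 32 T1 (1 + 2 * f) : ℕ) : ℤ) + 1920 * 67108864 = 1921 * (dg 32 MM f : ℤ) := by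
      exact_mod_cast h2'
    linarith

theorem mm_le (f : ℕ) (hf : f < 16) : mm f ≤ 2400 := by
  have h := (allN_iff _ _).1 ckM1 f hf
  simp only [Bool.and_eq_true] at h
  have h3 : dg 32 MM f ≤ 67108864 + 2400 := Nat.le_of_ble_eq_true h.2
  unfold mm
  have : ((dg 32 MM f : ℕ) : ℤ) ≤ 67108864 + 2400 := by exact_mod_cast h3
  linarith

omit [Fintype V] in
theorem h1_six (c : V → V → V → Bool) (x0 x1 x2 x3 x4 x5 : V) :
    (h1 (gX c ![x0, x1, x2, x3, x4, x5]) : ℝ) = 67108864 +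
      (2500 * ((c x0 x1 x2).toNat : ℝ) - 579) *
        (mm (n4 (c x3 x4 x5) (c x0 x3 x4) (c x0 x3 x5) (c x0 x4 x5)) : ℝ) := by
  unfold h1
  rw [code_pos5]
  have h := h1_val (c x0 x1 x2) (n4 (c x3 x4 x5) (c x0 x3 x4) (c x0 x3 x5) (c x0 x4 x5)) (n4_lt _ _ _ _)
  generalize n4 (c x3 x4 x5) (c x0 x3 x4) (c x0 x3 x5) (c x0 x4 x5) = f at *
  exact_mod_cast congrArg (fun z : ℤ => (z : ℝ)) h

/-- expectation of the multiplier -/
noncomputable def Em (w : V → ℝ) (c : V → V → V → Bool) : ℝ := ∑ x0, ∑ x3, ∑ x4, ∑ x5,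
  w x0 * (w x3 * (w x4 * w x5)) * (mm (n4 (c x3 x4 x5) (c x0 x3 x4) (c x0 x3 x5) (c x0 x4 x5)) : ℝ)

theorem Em_le (w : V → ℝ) (hw : ∀ x, 0 ≤ w x) (hs : ∑ x, w x = 1) (c : V → V → V → Bool) :
    Em w c ≤ 2400 := by
  have h : (2400 : ℝ) = ∑ x0, ∑ x3, ∑ x4, ∑ x5, w x0 * (w x3 * (w x4 * w x5)) * 2400 := by
    simp only [← mul_sum, ← sum_mul, hs, one_mul]
  rw [h]
  unfold Em
  refine sum_le_sum fun x0 _ => sum_le_sum fun x3 _ => sum_le_sum fun x4 _ => sum_le_sum fun x5 _ => ?_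
  refine mul_le_mul_of_nonneg_left ?_ (mul_nonneg (hw _) (mul_nonneg (hw _) (mul_nonneg (hw _) (hw _))))
  exact_mod_cast mm_le _ (n4_lt _ _ _ _)

/-- degree of a vertex -/
def deg (w : V → ℝ) (c : V → V → V → Bool) (x : V) : ℝ := ∑ y, ∑ z, w y * w z * ((c x y z).toNat : ℝ)

theorem Ev_h1 (w : V → ℝ) (hs : ∑ x, w x = 1) (c : V → V → V → Bool) (D : ℝ)
    (hD : ∀ x, w x ≠ 0 → deg w c x = D) :
    Ev w (fun X => (h1 (gX c X) : ℝ)) = 67108864 + (2500 * D - 579) * Em w c := by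
  have e1 := Ev_six w (fun X => (h1 (gX c X) : ℝ))
  have e2 : (67108864 : ℝ) = ∑ x0, ∑ x1, ∑ x2, ∑ x3, ∑ x4, ∑ x5,
      w x0 * (w x1 * (w x2 * (w x3 * (w x4 * w x5)))) * 67108864 := by
    rw [← Ev_six w fun _ => (67108864 : ℝ), Ev_one w hs]
  rw [e1]
  conv_rhs => rw [e2]
  unfold Em
  rw [mul_sum, ← sum_add_distrib]
  refine sum_congr rfl fun x0 _ => ?_
  simp only [h1_six, mul_add, sum_add_distrib]
  congr 1
  by_cases h0 : w x0 = 0
  · simp [h0]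
  have hd := hD x0 h0
  generalize hm : (fun x3 x4 x5 => (mm (n4 (c x3 x4 x5) (c x0 x3 x4) (c x0 x3 x5) (c x0 x4 x5)) : ℝ)) = m
  have hm' (x3 x4 x5 : V) : (mm (n4 (c x3 x4 x5) (c x0 x3 x4) (c x0 x3 x5) (c x0 x4 x5)) : ℝ) =
    m x3 x4 x5 := by rw [← hm]
  simp only [hm']
  have e3 : ∑ x1, ∑ x2, w x1 * w x2 * (2500 * ((c x0 x1 x2).toNat : ℝ) - 579) = 2500 * D - 579 := by
    rw [← hd]
    unfold deg
    have e4 : (579 : ℝ) = ∑ x1, ∑ x2, w x1 * w x2 * 579 := by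
      simp only [← mul_sum, ← sum_mul, hs, one_mul]
    conv_rhs => rw [e4]
    rw [mul_sum, ← sum_sub_distrib]
    refine sum_congr rfl fun x1 _ => ?_
    rw [mul_sum, ← sum_sub_distrib]
    exact sum_congr rfl fun x2 _ => by ring
  rw [← e3, sum_mul]
  refine sum_congr rfl fun x1 _ => ?_
  rw [sum_mul]
  refine sum_congr rfl fun x2 _ => ?_
  simp only [mul_sum]
  refine sum_congr rfl fun x3 _ => sum_congr rfl fun x4 _ => sum_congr rfl fun x5 _ => by ring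

/-! ### the number of edges -/

theorem Ev_dN (w : V → ℝ) (hs : ∑ x, w x = 1) {c : V → V → V → Bool} (hc : Sys c) :
    Ev w (fun X => (dN (gX c X) : ℝ)) = 20 * ∑ x, w x * deg w c x := by
  have e0 : Ev w (fun X => (bt (gX c X) 19 : ℝ)) = ∑ x, w x * deg w c x := by
    rw [Ev_six]
    unfold deg
    refine sum_congr rfl fun x0 _ => ?_
    simp only [bt_19, mul_sum]
    refine sum_congr rfl fun x1 _ => sum_congr rfl fun x2 _ => ?_
    have : ∀ x3 x4 x5 : V, w x0 * (w x1 * (w x2 * (w x3 * (w x4 * w x5)))) * ((c x0 x1 x2).toNat : ℝ) =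
        (w x0 * (w x1 * w x2 * ((c x0 x1 x2).toNat : ℝ))) * (w x3 * (w x4 * w x5)) := fun _ _ _ => by ring
    simp only [this, ← mul_sum, hs, mul_one]
  have e1 : (fun X : Fin 6 → V => (dN (gX c X) : ℝ)) =
      fun X => ∑ j ∈ range 20, (bt (act (p0 j) (gX c X)) 19 : ℝ) := by
    funext X
    unfold dN
    push_cast
    refine sum_congr rfl fun j hj => ?_
    have h := (allN_iff _ _).1 okP0 j (mem_range.1 hj)
    rw [Bool.and_eq_true] at h
    rw [bt_act _ _ _ (by norm_num), Nat.eq_of_beq_eq_true h.2]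
  rw [e1, Ev_sum, sum_congr rfl fun j hj => Ev_act w hc (fun g => (bt g 19 : ℝ)) (by
    have h := (allN_iff _ _).1 okP0 j (mem_range.1 hj)
    rw [Bool.and_eq_true] at h
    exact h.1), e0, sum_const, card_range, nsmul_eq_mul]
  norm_num

/-- the bound for weights with constant degrees -/
theorem regular_bound (w : V → ℝ) (hw : ∀ x, 0 ≤ w x) (hs : ∑ x, w x = 1) {c : V → V → V → Bool}
    (hc : Sys c) (D : ℝ) (hD : ∀ x, w x ≠ 0 → deg w c x = D) : 579 / 2500 < D := by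
  have hDs : ∑ x, w x * deg w c x = D := by
    have : ∀ x, w x * deg w c x = w x * D := fun x => by
      by_cases h : w x = 0
      · rw [h, zero_mul, zero_mul]
      · rw [hD x h]
    simp only [this, ← sum_mul, hs, one_mul]
  have h0 := Ev_mono w hw (fun X => ((blk h4 p4 15 (gX c X) : ℝ) + (blk h2 p2 45 (gX c X) : ℝ)) +
      (blk h1 p1 60 (gX c X) : ℝ) + 83376001)
    (fun X => 18000000 * (dN (gX c X) : ℝ) + 11072962560) (fun X => by
      have h := pointwise (gX c X) (gX_lt c X) (gX_valid hc X)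
      unfold FF at h
      exact_mod_cast h)
  rw [Ev_add, Ev_add, Ev_add, Ev_add, Ev_smul, Ev_one w hs, Ev_one w hs, Ev_blk w hc _ _ _ okP4,
    Ev_blk w hc _ _ _ okP2, Ev_blk w hc _ _ _ okP1, Ev_dN w hs hc, hDs, Ev_h1 w hs c D hD] at h0
  have h4' := Ev_h4 w hw hs c
  have h2' := Ev_h2 w hw hs c
  have hm := Em_le w hw hs c
  push_cast at h0
  by_contra hcon
  rw [not_lt] at hcon
  have h5 : 2500 * D - 579 ≤ 0 := by linarith
  have h6 : 0 ≤ (2400 - Em w c) * (579 - 2500 * D) := mul_nonneg (by linarith) (by linarith)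
  nlinarith

end Pool.Agent.T53
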