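import Pool.Agent.Lib.MP_19b7b8_co_FA.Lk

/-!
# MP_19b7b8_co: kernel checks of the large table (invariance)
-/

namespace Pool.Agent.T53

theorem ckI2_l : AllL (fun t => AllL (fun b => ckI 2 t b = true) [0, 1, 2, 3]) [0, 1, 2, 3, 4, 5, 6, 7, 8, 9, 10, 11, 12, 13, 14, 15] :=
  ⟨⟨by decide +kernel, by decide +kernel, by decide +kernel, by decide +kernel, True.intro⟩,
   ⟨by decide +kernel, by decide +kernel, by decide +kernel, by decide +kernel, True.intro⟩,
   ⟨by decide +kernel, by decide +kernel, by decide +kernel, by decide +kernel, True.intro⟩,
   ⟨by decide +kernel, by decide +kernel, by decide +kernel, by decide +kernel, True.intro⟩,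
   ⟨by decide +kernel, by decide +kernel, by decide +kernel, by decide +kernel, True.intro⟩,
   ⟨by decide +kernel, by decide +kernel, by decide +kernel, by decide +kernel, True.intro⟩,
   ⟨by decide +kernel, by decide +kernel, by decide +kernel, by decide +kernel, True.intro⟩,
   ⟨by decide +kernel, by decide +kernel, by decide +kernel, by decide +kernel, True.intro⟩,
   ⟨by decide +kernel, by decide +kernel, by decide +kernel, by decide +kernel, True.intro⟩,
   ⟨by decide +kernel, by decide +kernel, by decide +kernel, by decide +kernel, True.intro⟩,
   ⟨by decide +kernel, by decide +kernel, by decide +kernel, by decide +kernel, True.intro⟩,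
   ⟨by decide +kernel, by decide +kernel, by decide +kernel, by decide +kernel, True.intro⟩,
   ⟨by decide +kernel, by decide +kernel, by decide +kernel, by decide +kernel, True.intro⟩,
   ⟨by decide +kernel, by decide +kernel, by decide +kernel, by decide +kernel, True.intro⟩,
   ⟨by decide +kernel, by decide +kernel, by decide +kernel, by decide +kernel, True.intro⟩,
   ⟨by decide +kernel, by decide +kernel, by decide +kernel, by decide +kernel, True.intro⟩, True.intro⟩

end Pool.Agent.T53
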