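import Pool.Agent.Lib.MP_19b7b8_co_FA.Samp
import Pool.Agent.Lib.MP_19b7b8_co_FA.Enum

/-!
# MP_19b7b8_co: expectations over samples
-/

namespace Pool.Agent.T53

open Finset

variable {V : Type*} [Fintype V]

/-- expectation over six independent vertices -/
def Ev (w : V → ℝ) (h : (Fin 6 → V) → ℝ) : ℝ := ∑ X : Fin 6 → V, (∏ i, w (X i)) * h X

theorem Ev_perm (w : V → ℝ) (h : (Fin 6 → V) → ℝ) (π : Equiv.Perm (Fin 6)) :
    Ev w (fun X => h (X ∘ π)) = Ev w h := by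
  unfold Ev
  refine Fintype.sum_equiv (Equiv.arrowCongr π.symm (Equiv.refl V)) _ _ fun X => ?_
  have e : (Equiv.arrowCongr π.symm (Equiv.refl V)) X = X ∘ π := by
    funext i; simp [Equiv.arrowCongr]
  rw [e]
  congr 1
  exact (Equiv.prod_comp π fun i => w (X i)).symm

theorem Ev_bij (w : V → ℝ) (h : (Fin 6 → V) → ℝ) (f : Fin 6 → Fin 6) (hf : Function.Bijective f) :
    Ev w (fun X => h (X ∘ f)) = Ev w h := Ev_perm w h (Equiv.ofBijective f hf)

theorem Ev_act (w : V → ℝ) {c : V → V → V → Bool} (hc : Sys c) (F : ℕ → ℝ) {p : ℕ}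
    (hp : okP p = true) : Ev w (fun X => F (act p (gX c X))) = Ev w (fun X => F (gX c X)) := by
  have h := Ev_bij w (fun X => F (gX c X)) (pfun p) (pfun_bij hp)
  simp only [gX_perm hc hp] at h
  exact h

theorem Ev_add (w : V → ℝ) (f g : (Fin 6 → V) → ℝ) :
    Ev w (fun X => f X + g X) = Ev w f + Ev w g := by
  unfold Ev; rw [← sum_add_distrib]; exact sum_congr rfl fun _ _ => by ring

theorem Ev_smul (w : V → ℝ) (a : ℝ) (f : (Fin 6 → V) → ℝ) :
    Ev w (fun X => a * f X) = a * Ev w f := by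
  unfold Ev; rw [mul_sum]; exact sum_congr rfl fun _ _ => by ring

theorem Ev_sum (w : V → ℝ) {ι : Type*} (s : Finset ι) (f : ι → (Fin 6 → V) → ℝ) :
    Ev w (fun X => ∑ k ∈ s, f k X) = ∑ k ∈ s, Ev w (f k) := by
  unfold Ev; rw [sum_comm]; exact sum_congr rfl fun _ _ => by rw [mul_sum]

theorem Ev_mono (w : V → ℝ) (hw : ∀ x, 0 ≤ w x) (f g : (Fin 6 → V) → ℝ) (h : ∀ X, f X ≤ g X) :
    Ev w f ≤ Ev w g := by
  unfold Ev
  exact sum_le_sum fun X _ => mul_le_mul_of_nonneg_left (h X) (prod_nonneg fun i _ => hw _)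

theorem sum_cons (n : ℕ) (F : (Fin (n + 1) → V) → ℝ) :
    ∑ X : Fin (n + 1) → V, F X = ∑ x : V, ∑ Y : Fin n → V, F (Fin.cons x Y) := by
  rw [← (Fin.consEquiv (fun _ : Fin (n + 1) => V)).sum_comp, Fintype.sum_prod_type]
  rfl

theorem Ev_six (w : V → ℝ) (h : (Fin 6 → V) → ℝ) : Ev w h =
    ∑ x0, ∑ x1, ∑ x2, ∑ x3, ∑ x4, ∑ x5,
      w x0 * (w x1 * (w x2 * (w x3 * (w x4 * w x5)))) * h ![x0, x1, x2, x3, x4, x5] := by
  unfold Ev
  simp only [sum_cons]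
  refine sum_congr rfl fun x0 _ => sum_congr rfl fun x1 _ => sum_congr rfl fun x2 _ =>
    sum_congr rfl fun x3 _ => sum_congr rfl fun x4 _ => sum_congr rfl fun x5 _ => ?_
  rw [Fintype.sum_unique]
  have e : (Fin.cons x0 (Fin.cons x1 (Fin.cons x2 (Fin.cons x3 (Fin.cons x4 (Fin.cons x5 default)))))
      : Fin 6 → V) = ![x0, x1, x2, x3, x4, x5] := by
    funext i; fin_cases i <;> rfl
  rw [e]
  congr 1
  simp [Fin.prod_univ_succ]

theorem Ev_one (w : V → ℝ) (hs : ∑ x, w x = 1) (a : ℝ) : Ev w (fun _ => a) = a := by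
  rw [Ev_six]
  simp only [← mul_sum, ← sum_mul, mul_assoc, hs, one_mul]

/-! ### the base blocks in terms of the vertices -/

theorem ckPos : (Nat.beq (post 0) 19 && Nat.beq (post 1) 18 && Nat.beq (post 2) 16 && Nat.beq (post 3) 13 &&
   Nat.beq (posf 0) 17 && Nat.beq (posf 1) 15 && Nat.beq (posf 2) 14 && Nat.beq (posf 3) 12 &&
   Nat.beq (posf 4) 11 && Nat.beq (posf 5) 10 &&
   Nat.beq (posg 0) 9 && Nat.beq (posg 1) 8 && Nat.beq (posg 2) 7 && Nat.beq (posg 3) 5 &&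
   Nat.beq (posg 4) 4 && Nat.beq (posg 5) 2 &&
   Nat.beq (pos8 0) 19 && Nat.beq (pos8 1) 18 && Nat.beq (pos8 2) 16 && Nat.beq (pos8 3) 13 &&
   Nat.beq (pos8 4) 17 && Nat.beq (pos8 5) 9 && Nat.beq (pos8 6) 6 && Nat.beq (pos8 7) 3 &&
   Nat.beq (pos5 0) 19 && Nat.beq (pos5 1) 0 && Nat.beq (pos5 2) 14 && Nat.beq (pos5 3) 7 &&
   Nat.beq (pos5 4) 6) = true := by decide +kernel

/-- the triple in position `j` is `(a,b,e)` -/
def isT (A B C j a b e : ℕ) : Bool := Nat.beq (dg 4 A j) a && (Nat.beq (dg 4 B j) b && Nat.beq (dg 4 C j) e)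

theorem ckTri : (isT TA TB TC 19 0 1 2 && isT TA TB TC 18 0 1 3 && isT TA TB TC 17 0 1 4 &&
  isT TA TB TC 16 0 2 3 && isT TA TB TC 15 0 2 4 && isT TA TB TC 14 0 3 4 && isT TA TB TC 13 1 2 3 &&
  isT TA TB TC 12 1 2 4 && isT TA TB TC 11 1 3 4 && isT TA TB TC 10 2 3 4 && isT TA TB TC 9 0 1 5 &&
  isT TA TB TC 8 0 2 5 && isT TA TB TC 7 0 3 5 && isT TA TB TC 6 0 4 5 && isT TA TB TC 5 1 2 5 &&
  isT TA TB TC 4 1 3 5 && isT TA TB TC 3 1 4 5 && isT TA TB TC 2 2 3 5 && isT TA TB TC 1 2 4 5 &&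
  isT TA TB TC 0 3 4 5) = true := by decide +kernel

omit [Fintype V] in
theorem bX_isT (c : V → V → V → Bool) (X : Fin 6 → V) {j a b e : ℕ} (h : isT TA TB TC j a b e = true) :
    bX c X j = (c (X (fn a)) (X (fn b)) (X (fn e))).toNat := by
  simp only [isT, Bool.and_eq_true] at h
  unfold bX ta tb tc
  rw [Nat.eq_of_beq_eq_true h.1, Nat.eq_of_beq_eq_true h.2.1, Nat.eq_of_beq_eq_true h.2.2]

/-- four bits as a number -/
def n4 (a b c d : Bool) : ℕ := a.toNat + 2 * b.toNat + 4 * c.toNat + 8 * d.toNat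

theorem n4_lt (a b c d : Bool) : n4 a b c d < 16 := by cases a <;> cases b <;> cases c <;> cases d <;> simp [n4]

/-- the pattern of a vertex over four roots -/
def pat (c : V → V → V → Bool) (a b d e x : V) : ℕ :=
  (c a b x).toNat + 2 * (c a d x).toNat + 4 * (c a e x).toNat + 8 * (c b d x).toNat +
    16 * (c b e x).toNat + 32 * (c d e x).toNat

omit [Fintype V] in
theorem pat_lt (c : V → V → V → Bool) (a b d e x : V) : pat c a b d e x < 64 := by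
  unfold pat
  have h (b : Bool) : b.toNat ≤ 1 := by cases b <;> simp
  have := h (c a b x); have := h (c a d x); have := h (c a e x); have := h (c b d x)
  have := h (c b e x); have := h (c d e x)
  omega

section

omit [Fintype V]

variable (c : V → V → V → Bool) (x0 x1 x2 x3 x4 x5 : V)

theorem code_post : code post 4 (gX c ![x0, x1, x2, x3, x4, x5]) =
    n4 (c x0 x1 x2) (c x0 x1 x3) (c x0 x2 x3) (c x1 x2 x3) := by
  have h := ckPos
  have t := ckTri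
  simp only [Bool.and_eq_true] at h t
  unfold code
  rw [mk_eq]
  simp only [sum_range_succ, sum_range_zero]
  have e0 : post 0 = 19 := Nat.eq_of_beq_eq_true (by tauto)
  have e1 : post 1 = 18 := Nat.eq_of_beq_eq_true (by tauto)
  have e2 : post 2 = 16 := Nat.eq_of_beq_eq_true (by tauto)
  have e3 : post 3 = 13 := Nat.eq_of_beq_eq_true (by tauto)
  rw [e0, e1, e2, e3, bt_gX _ _ _ (by norm_num), bt_gX _ _ _ (by norm_num), bt_gX _ _ _ (by norm_num),
    bt_gX _ _ _ (by norm_num), bX_isT c _ (a := 0) (b := 1) (e := 2) (by tauto),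
    bX_isT c _ (a := 0) (b := 1) (e := 3) (by tauto), bX_isT c _ (a := 0) (b := 2) (e := 3) (by tauto),
    bX_isT c _ (a := 1) (b := 2) (e := 3) (by tauto)]
  unfold n4
  show 0 + (c x0 x1 x2).toNat * 2 ^ 0 + (c x0 x1 x3).toNat * 2 ^ 1 + (c x0 x2 x3).toNat * 2 ^ 2 +
    (c x1 x2 x3).toNat * 2 ^ 3 = _
  ring

theorem code_posf : code posf 6 (gX c ![x0, x1, x2, x3, x4, x5]) = pat c x0 x1 x2 x3 x4 := by
  have h := ckPos
  have t := ckTri
  simp only [Bool.and_eq_true] at h t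
  unfold code
  rw [mk_eq]
  simp only [sum_range_succ, sum_range_zero]
  have e0 : posf 0 = 17 := Nat.eq_of_beq_eq_true (by tauto)
  have e1 : posf 1 = 15 := Nat.eq_of_beq_eq_true (by tauto)
  have e2 : posf 2 = 14 := Nat.eq_of_beq_eq_true (by tauto)
  have e3 : posf 3 = 12 := Nat.eq_of_beq_eq_true (by tauto)
  have e4 : posf 4 = 11 := Nat.eq_of_beq_eq_true (by tauto)
  have e5 : posf 5 = 10 := Nat.eq_of_beq_eq_true (by tauto)
  rw [e0, e1, e2, e3, e4, e5, bt_gX _ _ _ (by norm_num), bt_gX _ _ _ (by norm_num),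
    bt_gX _ _ _ (by norm_num), bt_gX _ _ _ (by norm_num), bt_gX _ _ _ (by norm_num),
    bt_gX _ _ _ (by norm_num), bX_isT c _ (a := 0) (b := 1) (e := 4) (by tauto),
    bX_isT c _ (a := 0) (b := 2) (e := 4) (by tauto), bX_isT c _ (a := 0) (b := 3) (e := 4) (by tauto),
    bX_isT c _ (a := 1) (b := 2) (e := 4) (by tauto), bX_isT c _ (a := 1) (b := 3) (e := 4) (by tauto),
    bX_isT c _ (a := 2) (b := 3) (e := 4) (by tauto)]
  unfold pat
  show 0 + (c x0 x1 x4).toNat * 2 ^ 0 + (c x0 x2 x4).toNat * 2 ^ 1 + (c x0 x3 x4).toNat * 2 ^ 2 +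
    (c x1 x2 x4).toNat * 2 ^ 3 + (c x1 x3 x4).toNat * 2 ^ 4 + (c x2 x3 x4).toNat * 2 ^ 5 = _
  ring

theorem code_posg : code posg 6 (gX c ![x0, x1, x2, x3, x4, x5]) = pat c x0 x1 x2 x3 x5 := by
  have h := ckPos
  have t := ckTri
  simp only [Bool.and_eq_true] at h t
  unfold code
  rw [mk_eq]
  simp only [sum_range_succ, sum_range_zero]
  have e0 : posg 0 = 9 := Nat.eq_of_beq_eq_true (by tauto)
  have e1 : posg 1 = 8 := Nat.eq_of_beq_eq_true (by tauto)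
  have e2 : posg 2 = 7 := Nat.eq_of_beq_eq_true (by tauto)
  have e3 : posg 3 = 5 := Nat.eq_of_beq_eq_true (by tauto)
  have e4 : posg 4 = 4 := Nat.eq_of_beq_eq_true (by tauto)
  have e5 : posg 5 = 2 := Nat.eq_of_beq_eq_true (by tauto)
  rw [e0, e1, e2, e3, e4, e5, bt_gX _ _ _ (by norm_num), bt_gX _ _ _ (by norm_num),
    bt_gX _ _ _ (by norm_num), bt_gX _ _ _ (by norm_num), bt_gX _ _ _ (by norm_num),
    bt_gX _ _ _ (by norm_num), bX_isT c _ (a := 0) (b := 1) (e := 5) (by tauto),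
    bX_isT c _ (a := 0) (b := 2) (e := 5) (by tauto), bX_isT c _ (a := 0) (b := 3) (e := 5) (by tauto),
    bX_isT c _ (a := 1) (b := 2) (e := 5) (by tauto), bX_isT c _ (a := 1) (b := 3) (e := 5) (by tauto),
    bX_isT c _ (a := 2) (b := 3) (e := 5) (by tauto)]
  unfold pat
  show 0 + (c x0 x1 x5).toNat * 2 ^ 0 + (c x0 x2 x5).toNat * 2 ^ 1 + (c x0 x3 x5).toNat * 2 ^ 2 +
    (c x1 x2 x5).toNat * 2 ^ 3 + (c x1 x3 x5).toNat * 2 ^ 4 + (c x2 x3 x5).toNat * 2 ^ 5 = _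
  ring

theorem code_pos8 : code pos8 8 (gX c ![x0, x1, x2, x3, x4, x5]) =
    n4 (c x0 x1 x2) (c x0 x1 x3) (c x0 x2 x3) (c x1 x2 x3) +
    16 * n4 (c x0 x1 x4) (c x0 x1 x5) (c x0 x4 x5) (c x1 x4 x5) := by
  have h := ckPos
  have t := ckTri
  simp only [Bool.and_eq_true] at h t
  unfold code
  rw [mk_eq]
  simp only [sum_range_succ, sum_range_zero]
  have e0 : pos8 0 = 19 := Nat.eq_of_beq_eq_true (by tauto)
  have e1 : pos8 1 = 18 := Nat.eq_of_beq_eq_true (by tauto)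
  have e2 : pos8 2 = 16 := Nat.eq_of_beq_eq_true (by tauto)
  have e3 : pos8 3 = 13 := Nat.eq_of_beq_eq_true (by tauto)
  have e4 : pos8 4 = 17 := Nat.eq_of_beq_eq_true (by tauto)
  have e5 : pos8 5 = 9 := Nat.eq_of_beq_eq_true (by tauto)
  have e6 : pos8 6 = 6 := Nat.eq_of_beq_eq_true (by tauto)
  have e7 : pos8 7 = 3 := Nat.eq_of_beq_eq_true (by tauto)
  rw [e0, e1, e2, e3, e4, e5, e6, e7, bt_gX _ _ _ (by norm_num), bt_gX _ _ _ (by norm_num),
    bt_gX _ _ _ (by norm_num), bt_gX _ _ _ (by norm_num), bt_gX _ _ _ (by norm_num),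
    bt_gX _ _ _ (by norm_num), bt_gX _ _ _ (by norm_num), bt_gX _ _ _ (by norm_num),
    bX_isT c _ (a := 0) (b := 1) (e := 2) (by tauto), bX_isT c _ (a := 0) (b := 1) (e := 3) (by tauto),
    bX_isT c _ (a := 0) (b := 2) (e := 3) (by tauto), bX_isT c _ (a := 1) (b := 2) (e := 3) (by tauto),
    bX_isT c _ (a := 0) (b := 1) (e := 4) (by tauto), bX_isT c _ (a := 0) (b := 1) (e := 5) (by tauto),
    bX_isT c _ (a := 0) (b := 4) (e := 5) (by tauto), bX_isT c _ (a := 1) (b := 4) (e := 5) (by tauto)]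
  unfold n4
  show 0 + (c x0 x1 x2).toNat * 2 ^ 0 + (c x0 x1 x3).toNat * 2 ^ 1 + (c x0 x2 x3).toNat * 2 ^ 2 +
    (c x1 x2 x3).toNat * 2 ^ 3 + (c x0 x1 x4).toNat * 2 ^ 4 + (c x0 x1 x5).toNat * 2 ^ 5 +
    (c x0 x4 x5).toNat * 2 ^ 6 + (c x1 x4 x5).toNat * 2 ^ 7 = _
  ring

theorem code_pos5 : code pos5 5 (gX c ![x0, x1, x2, x3, x4, x5]) =
    (c x0 x1 x2).toNat + 2 * n4 (c x3 x4 x5) (c x0 x3 x4) (c x0 x3 x5) (c x0 x4 x5) := by
  have h := ckPos
  have t := ckTri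
  simp only [Bool.and_eq_true] at h t
  unfold code
  rw [mk_eq]
  simp only [sum_range_succ, sum_range_zero]
  have e0 : pos5 0 = 19 := Nat.eq_of_beq_eq_true (by tauto)
  have e1 : pos5 1 = 0 := Nat.eq_of_beq_eq_true (by tauto)
  have e2 : pos5 2 = 14 := Nat.eq_of_beq_eq_true (by tauto)
  have e3 : pos5 3 = 7 := Nat.eq_of_beq_eq_true (by tauto)
  have e4 : pos5 4 = 6 := Nat.eq_of_beq_eq_true (by tauto)
  rw [e0, e1, e2, e3, e4, bt_gX _ _ _ (by norm_num), bt_gX _ _ _ (by norm_num),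
    bt_gX _ _ _ (by norm_num), bt_gX _ _ _ (by norm_num), bt_gX _ _ _ (by norm_num),
    bX_isT c _ (a := 0) (b := 1) (e := 2) (by tauto), bX_isT c _ (a := 3) (b := 4) (e := 5) (by tauto),
    bX_isT c _ (a := 0) (b := 3) (e := 4) (by tauto), bX_isT c _ (a := 0) (b := 3) (e := 5) (by tauto),
    bX_isT c _ (a := 0) (b := 4) (e := 5) (by tauto)]
  unfold n4
  show 0 + (c x0 x1 x2).toNat * 2 ^ 0 + (c x3 x4 x5).toNat * 2 ^ 1 + (c x0 x3 x4).toNat * 2 ^ 2 +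
    (c x0 x3 x5).toNat * 2 ^ 3 + (c x0 x4 x5).toNat * 2 ^ 4 = _
  ring

theorem bt_19 : bt (gX c ![x0, x1, x2, x3, x4, x5]) 19 = (c x0 x1 x2).toNat := by
  have t := ckTri
  simp only [Bool.and_eq_true] at t
  rw [bt_gX _ _ _ (by norm_num), bX_isT c _ (a := 0) (b := 1) (e := 2) (by tauto)]
  rfl

end

end Pool.Agent.T53
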