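import Pool.Agent.Lib.MP_19b7b8_co_FA.Lk

/-!
# MP_19b7b8_co: the packed fields of a graph
-/

namespace Pool.Agent.T53

open Finset

/-- packed fields of the graph `g` -/
def cg (uu g : ℕ) : ℕ := sumN (fun j => Nat.mul (bt g j) (dg 2660 uu j)) 20

/-- coefficient of the bit `j` in the field `k` -/
noncomputable def uf (k j : ℕ) : ℕ := dg 20 (dg 2660 UU j) k

/-- the field `k` of the graph `g` -/
noncomputable def phi (k g : ℕ) : ℕ := ∑ j ∈ range 20, bt g j * uf k j

theorem ckU : allN (fun k => Nat.ble (Nat.add (sumN (fun j => uf k j) 20) 1) 1048576) 133 = true := by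
  decide +kernel

theorem phi_lt (k g : ℕ) (hk : k < 133) : phi k g < 2 ^ 20 := by
  have h := (allN_iff _ _).1 ckU k hk
  have h1 := Nat.le_of_ble_eq_true h
  rw [sumN_eq] at h1
  have h2 : phi k g ≤ ∑ j ∈ range 20, uf k j := by
    unfold phi
    refine sum_le_sum fun j _ => ?_
    calc bt g j * uf k j ≤ 1 * uf k j := Nat.mul_le_mul_right _ (bt_le _ _)
      _ = uf k j := one_mul _
  have h3 : (∑ j ∈ range 20, uf k j) + 1 ≤ 1048576 := h1
  omega

theorem dg_cg (k g : ℕ) (hk : k < 133) : dg 20 (cg UU g) k = phi k g := by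
  have h1 : cg UU g = ∑ k ∈ range 133, phi k g * (2 ^ 20) ^ k := by
    unfold cg phi
    rw [sumN_eq]
    simp only [sum_mul]
    rw [sum_comm]
    refine sum_congr rfl fun j _ => ?_
    show bt g j * dg 2660 UU j = _
    have h2 : dg 2660 UU j < (2 ^ 20) ^ 133 := by
      rw [← pow_mul]; exact dg_lt _ _ _
    have h3 := dig_expand (2 ^ 20) (by positivity) 133 _ h2
    conv_lhs => rw [h3]
    rw [mul_sum]
    refine sum_congr rfl fun k _ => ?_
    unfold uf
    rw [dg_eq 20, mul_assoc]
  rw [dg_eq, h1]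
  exact dig_get (2 ^ 20) (fun k => phi k g) 133 (fun i hi => phi_lt i g hi) k hk

theorem phi_sel (k g m : ℕ) (s : ℕ → ℕ) (hs : ∀ i < m, s i < 20)
    (hu : ∀ j < 20, uf k j = mk (fun i => cond (Nat.beq (s i) j) 1 0) m) :
    phi k g = mk (fun i => bt g (s i)) m := by
  unfold phi
  rw [sum_congr rfl fun j hj => by rw [hu j (mem_range.1 hj), mk_eq, mul_sum], sum_comm, mk_eq]
  refine sum_congr rfl fun i hi => ?_
  rw [sum_eq_single (s i)]
  · simp
  · intro j _ hj
    have : Nat.beq (s i) j = false := by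
      rw [Bool.eq_false_iff]; intro h; exact hj (Nat.eq_of_beq_eq_true h).symm
    rw [this]; simp
  · intro h
    exact absurd (mem_range.2 (hs i (mem_range.1 hi))) h

/-- check of a field -/
noncomputable def ckF (k m : ℕ) (s : ℕ → ℕ) : Bool :=
  allN (fun i => Nat.ble (Nat.add (s i) 1) 20) m &&
  allN (fun j => Nat.beq (uf k j) (mk (fun i => cond (Nat.beq (s i) j) 1 0) m)) 20

theorem ckF_spec {k m : ℕ} {s : ℕ → ℕ} (h : ckF k m s = true) (g : ℕ) :
    phi k g = mk (fun i => bt g (s i)) m := by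
  simp only [ckF, Bool.and_eq_true] at h
  exact phi_sel k g m s (fun i hi => Nat.le_of_ble_eq_true ((allN_iff _ _).1 h.1 i hi))
    fun j hj => Nat.eq_of_beq_eq_true ((allN_iff _ _).1 h.2 j hj)

/-- the 16 positions -/
noncomputable def pos16 (i : ℕ) : ℕ := cond (Nat.ble (Nat.add i 1) 4) (post i)
  (cond (Nat.ble (Nat.add i 1) 10) (posf (Nat.sub i 4)) (posg (Nat.sub i 10)))

theorem ckF4 : allN (fun k => ckF k 16 (fun i => sel (p4 k) (pos16 i))) 15 = true := by decide +kernel
theorem ckF2 : allN (fun k => ckF (Nat.add 15 k) 8 (fun i => sel (p2 k) (pos8 i))) 45 = true := by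
  decide +kernel
theorem ckF1 : allN (fun k => ckF (Nat.add 60 k) 5 (fun i => sel (p1 k) (pos5 i))) 60 = true := by
  decide +kernel
theorem ckFg : allN (fun s => ckF (Nat.add 127 s) 20 (fun i => sel (pg s) i)) 5 = true := by
  decide +kernel
theorem ckFi : ckF 132 20 (fun i => i) = true := by decide +kernel
theorem ckFd : allN (fun j => Nat.beq (uf 120 j) 1) 20 = true := by decide +kernel
theorem ckFv : allN (fun v => allN (fun j => Nat.beq (uf (Nat.add 121 v) j) (cond (inFS v j) 1 0)) 20) 6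
    = true := by decide +kernel

theorem phi_g (g : ℕ) (hg : g < 2 ^ 20) : phi 132 g = g := by
  rw [ckF_spec ckFi g]; exact mk_bt 20 g hg

theorem phi_act {s : ℕ} (hs : s < 5) (g : ℕ) : phi (127 + s) g = act (pg s) g :=
  ckF_spec ((allN_iff _ _).1 ckFg s hs) g

theorem phi_dN (g : ℕ) : phi 120 g = dN g := by
  unfold phi dN
  refine sum_congr rfl fun j hj => ?_
  have := Nat.eq_of_beq_eq_true ((allN_iff _ _).1 ckFd j (mem_range.1 hj))
  rw [this, mul_one]

theorem phi_fs {v : ℕ} (hv : v < 6) (g : ℕ) (h : phi (121 + v) g = 0) (j : ℕ) (hj : j < 20)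
    (hi : inFS v j = true) : bt g j = 0 := by
  unfold phi at h
  have h1 := (sum_eq_zero_iff.1 h) j (mem_range.2 hj)
  have h2 := Nat.eq_of_beq_eq_true ((allN_iff _ _).1 ((allN_iff _ _).1 ckFv v hv) j hj)
  have h3 : uf (121 + v) j = cond (inFS v j) 1 0 := h2
  rw [h3, hi] at h1
  simpa using h1

theorem phi_4 {k : ℕ} (hk : k < 15) (g : ℕ) : phi k g = code16 (act (p4 k) g) := by
  have h1 := (allN_iff _ _).1 ckF4 k hk
  rw [ckF_spec h1 g]
  have hlt : ∀ i < 16, sel (p4 k) (pos16 i) < 20 := by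
    simp only [ckF, Bool.and_eq_true] at h1
    exact fun i hi => Nat.le_of_ble_eq_true ((allN_iff _ _).1 h1.1 i hi)
  rw [show (16 : ℕ) = 4 + (6 + 6) by norm_num, mk_add, mk_add]
  unfold code16
  have e1 : code post 4 (act (p4 k) g) = mk (fun i => bt g (sel (p4 k) (pos16 i))) 4 := by
    refine mk_congr fun i hi => ?_
    have h3 : pos16 i = post i := by
      unfold pos16
      have : Nat.ble (Nat.add i 1) 4 = true := Nat.ble_eq_true_of_le (by show i + 1 ≤ 4; omega)
      rw [this]; rfl
    rw [h3]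
    exact bt_act _ _ _ (by
      have := (by decide +kernel : allN (fun i => Nat.ble (Nat.add (post i) 1) 20) 4 = true)
      exact Nat.le_of_ble_eq_true ((allN_iff _ _).1 this i hi))
  have e2 : code posf 6 (act (p4 k) g) = mk (fun i => bt g (sel (p4 k) (pos16 (4 + i)))) 6 := by
    refine mk_congr fun i hi => ?_
    have h3 : pos16 (4 + i) = posf i := by
      unfold pos16
      have h4 : Nat.ble (Nat.add (4 + i) 1) 4 = false := by
        rw [Bool.eq_false_iff]; intro h
        have : (4 + i) + 1 ≤ 4 := Nat.le_of_ble_eq_true h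
        omega
      have h5 : Nat.ble (Nat.add (4 + i) 1) 10 = true :=
        Nat.ble_eq_true_of_le (by show (4 + i) + 1 ≤ 10; omega)
      have h6 : Nat.sub (4 + i) 4 = i := by show 4 + i - 4 = i; omega
      rw [h4, h5, h6]; rfl
    rw [h3]
    exact bt_act _ _ _ (by
      have := (by decide +kernel : allN (fun i => Nat.ble (Nat.add (posf i) 1) 20) 6 = true)
      exact Nat.le_of_ble_eq_true ((allN_iff _ _).1 this i hi))
  have e3 : code posg 6 (act (p4 k) g) = mk (fun i => bt g (sel (p4 k) (pos16 (4 + (6 + i))))) 6 := by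
    refine mk_congr fun i hi => ?_
    have h3 : pos16 (4 + (6 + i)) = posg i := by
      unfold pos16
      have h4 : Nat.ble (Nat.add (4 + (6 + i)) 1) 4 = false := by
        rw [Bool.eq_false_iff]; intro h
        have : (4 + (6 + i)) + 1 ≤ 4 := Nat.le_of_ble_eq_true h
        omega
      have h5 : Nat.ble (Nat.add (4 + (6 + i)) 1) 10 = false := by
        rw [Bool.eq_false_iff]; intro h
        have : (4 + (6 + i)) + 1 ≤ 10 := Nat.le_of_ble_eq_true h
        omega
      have h6 : Nat.sub (4 + (6 + i)) 10 = i := by show 4 + (6 + i) - 10 = i; omega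
      rw [h4, h5, h6]; rfl
    rw [h3]
    exact bt_act _ _ _ (by
      have := (by decide +kernel : allN (fun i => Nat.ble (Nat.add (posg i) 1) 20) 6 = true)
      exact Nat.le_of_ble_eq_true ((allN_iff _ _).1 this i hi))
  rw [e1, e2, e3]
  ring

theorem phi_2 {k : ℕ} (hk : k < 45) (g : ℕ) : phi (15 + k) g = code pos8 8 (act (p2 k) g) := by
  have h1 := (allN_iff _ _).1 ckF2 k hk
  refine (ckF_spec h1 g).trans (mk_congr fun i hi => ?_)
  exact (bt_act _ _ _ (by
      have := (by decide +kernel : allN (fun i => Nat.ble (Nat.add (pos8 i) 1) 20) 8 = true)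
      exact Nat.le_of_ble_eq_true ((allN_iff _ _).1 this i hi))).symm

theorem phi_1 {k : ℕ} (hk : k < 60) (g : ℕ) : phi (60 + k) g = code pos5 5 (act (p1 k) g) := by
  have h1 := (allN_iff _ _).1 ckF1 k hk
  refine (ckF_spec h1 g).trans (mk_congr fun i hi => ?_)
  exact (bt_act _ _ _ (by
      have := (by decide +kernel : allN (fun i => Nat.ble (Nat.add (pos5 i) 1) 20) 5 = true)
      exact Nat.le_of_ble_eq_true ((allN_iff _ _).1 this i hi))).symm

end Pool.Agent.T53
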