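import Pool.Agent.Lib.MP_19b7b8_co_FA.Base

/-!
# MP_19b7b8_co: the test at a leaf and the enumeration of the links of the vertex 5

`C` is a packed number with 133 fields of 20 bits: the fields 0-14 are arguments of the table `t4`,
15-59 in `t2`, 60-119 in `t1`, field 120 is the number of edges, 121-126 the numbers of edges in
the six 5-sets, 127-131 the images of the graph under the adjacent transpositions, 132 the graph.
-/

namespace Pool.Agent.T53

open Finset

/-- sum of the table entries, unrolled -/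
def leafS4 (t4 : ℕ → ℕ) (C : ℕ) : ℕ := Nat.add (Nat.add (Nat.add (Nat.add (Nat.add (Nat.add (Nat.add (Nat.add (Nat.add (Nat.add (Nat.add (Nat.add (Nat.add (Nat.add (Nat.add (0) (t4 (Nat.land (Nat.shiftRight C 0) 1048575))) (t4 (Nat.land (Nat.shiftRight C 20) 1048575))) (t4 (Nat.land (Nat.shiftRight C 40) 1048575))) (t4 (Nat.land (Nat.shiftRight C 60) 1048575))) (t4 (Nat.land (Nat.shiftRight C 80) 1048575))) (t4 (Nat.land (Nat.shiftRight C 100) 1048575))) (t4 (Nat.land (Nat.shiftRight C 120) 1048575))) (t4 (Nat.land (Nat.shiftRight C 140) 1048575))) (t4 (Nat.land (Nat.shiftRight C 160) 1048575))) (t4 (Nat.land (Nat.shiftRight C 180) 1048575))) (t4 (Nat.land (Nat.shiftRight C 200) 1048575))) (t4 (Nat.land (Nat.shiftRight C 220) 1048575))) (t4 (Nat.land (Nat.shiftRight C 240) 1048575))) (t4 (Nat.land (Nat.shiftRight C 260) 1048575))) (t4 (Nat.land (Nat.shiftRight C 280) 1048575))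

/-- sum of the table entries, unrolled -/
def leafS2 (t2 C : ℕ) : ℕ := Nat.add (Nat.add (Nat.add (Nat.add (Nat.add (Nat.add (Nat.add (Nat.add (Nat.add (Nat.add (Nat.add (Nat.add (Nat.add (Nat.add (Nat.add (Nat.add (Nat.add (Nat.add (Nat.add (Nat.add (Nat.add (Nat.add (Nat.add (Nat.add (Nat.add (Nat.add (Nat.add (Nat.add (Nat.add (Nat.add (Nat.add (Nat.add (Nat.add (Nat.add (Nat.add (Nat.add (Nat.add (Nat.add (Nat.add (Nat.add (Nat.add (Nat.add (Nat.add (Nat.add (Nat.add (0) (Nat.land (Nat.shiftRight t2 (Nat.mul 32 (Nat.land (Nat.shiftRight C 300) 1048575))) 4294967295)) (Nat.land (Nat.shiftRight t2 (Nat.mul 32 (Nat.land (Nat.shiftRight C 320) 1048575))) 4294967295)) (Nat.land (Nat.shiftRight t2 (Nat.mul 32 (Nat.land (Nat.shiftRight C 340) 1048575))) 4294967295)) (Nat.land (Nat.shiftRight t2 (Nat.mul 32 (Nat.land (Nat.shiftRight C 360) 1048575))) 4294967295)) (Nat.land (Nat.shiftRight t2 (Nat.mul 32 (Nat.land (Nat.shiftRight C 380) 1048575)))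 4294967295)) (Nat.land (Nat.shiftRight t2 (Nat.mul 32 (Nat.land (Nat.shiftRight C 400) 1048575))) 4294967295)) (Nat.land (Nat.shiftRight t2 (Nat.mul 32 (Nat.land (Nat.shiftRight C 420) 1048575))) 4294967295)) (Nat.land (Nat.shiftRight t2 (Nat.mul 32 (Nat.land (Nat.shiftRight C 440) 1048575))) 4294967295)) (Nat.land (Nat.shiftRight t2 (Nat.mul 32 (Nat.land (Nat.shiftRight C 460) 1048575))) 4294967295)) (Nat.land (Nat.shiftRight t2 (Nat.mul 32 (Nat.land (Nat.shiftRight C 480) 1048575))) 4294967295)) (Nat.land (Nat.shiftRight t2 (Nat.mul 32 (Nat.land (Nat.shiftRight C 500) 1048575))) 4294967295)) (Nat.land (Nat.shiftRight t2 (Nat.mul 32 (Nat.land (Nat.shiftRight C 520) 1048575))) 4294967295)) (Nat.land (Nat.shiftRight t2 (Nat.mul 32 (Nat.land (Nat.shiftRight C 540) 1048575))) 4294967295)) (Nat.land (Nat.shiftRight t2 (Nat.mul 32 (Nat.land (Nat.shiftRight C 560) 1048575))) 4294967295)) (Nat.land (Nat.shiftRight t2 (Nat.mul 32 (Nat.land (Nat.shiftRight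 C 580) 1048575))) 4294967295)) (Nat.land (Nat.shiftRight t2 (Nat.mul 32 (Nat.land (Nat.shiftRight C 600) 1048575))) 4294967295)) (Nat.land (Nat.shiftRight t2 (Nat.mul 32 (Nat.land (Nat.shiftRight C 620) 1048575))) 4294967295)) (Nat.land (Nat.shiftRight t2 (Nat.mul 32 (Nat.land (Nat.shiftRight C 640) 1048575))) 4294967295)) (Nat.land (Nat.shiftRight t2 (Nat.mul 32 (Nat.land (Nat.shiftRight C 660) 1048575))) 4294967295)) (Nat.land (Nat.shiftRight t2 (Nat.mul 32 (Nat.land (Nat.shiftRight C 680) 1048575))) 4294967295)) (Nat.land (Nat.shiftRight t2 (Nat.mul 32 (Nat.land (Nat.shiftRight C 700) 1048575))) 4294967295)) (Nat.land (Nat.shiftRight t2 (Nat.mul 32 (Nat.land (Nat.shiftRight C 720) 1048575))) 4294967295)) (Nat.land (Nat.shiftRight t2 (Nat.mul 32 (Nat.land (Nat.shiftRight C 740) 1048575))) 4294967295)) (Nat.land (Nat.shiftRight t2 (Nat.mul 32 (Nat.land (Nat.shiftRight C 760) 1048575))) 4294967295)) (Nat.land (Nat.shiftRight t2 (Nat.mul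 32 (Nat.land (Nat.shiftRight C 780) 1048575))) 4294967295)) (Nat.land (Nat.shiftRight t2 (Nat.mul 32 (Nat.land (Nat.shiftRight C 800) 1048575))) 4294967295)) (Nat.land (Nat.shiftRight t2 (Nat.mul 32 (Nat.land (Nat.shiftRight C 820) 1048575))) 4294967295)) (Nat.land (Nat.shiftRight t2 (Nat.mul 32 (Nat.land (Nat.shiftRight C 840) 1048575))) 4294967295)) (Nat.land (Nat.shiftRight t2 (Nat.mul 32 (Nat.land (Nat.shiftRight C 860) 1048575))) 4294967295)) (Nat.land (Nat.shiftRight t2 (Nat.mul 32 (Nat.land (Nat.shiftRight C 880) 1048575))) 4294967295)) (Nat.land (Nat.shiftRight t2 (Nat.mul 32 (Nat.land (Nat.shiftRight C 900) 1048575))) 4294967295)) (Nat.land (Nat.shiftRight t2 (Nat.mul 32 (Nat.land (Nat.shiftRight C 920) 1048575))) 4294967295)) (Nat.land (Nat.shiftRight t2 (Nat.mul 32 (Nat.land (Nat.shiftRight C 940) 1048575))) 4294967295)) (Nat.land (Nat.shiftRight t2 (Nat.mul 32 (Nat.land (Nat.shiftRight C 960) 1048575))) 4294967295)) (Nat.land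 (Nat.shiftRight t2 (Nat.mul 32 (Nat.land (Nat.shiftRight C 980) 1048575))) 4294967295)) (Nat.land (Nat.shiftRight t2 (Nat.mul 32 (Nat.land (Nat.shiftRight C 1000) 1048575))) 4294967295)) (Nat.land (Nat.shiftRight t2 (Nat.mul 32 (Nat.land (Nat.shiftRight C 1020) 1048575))) 4294967295)) (Nat.land (Nat.shiftRight t2 (Nat.mul 32 (Nat.land (Nat.shiftRight C 1040) 1048575))) 4294967295)) (Nat.land (Nat.shiftRight t2 (Nat.mul 32 (Nat.land (Nat.shiftRight C 1060) 1048575))) 4294967295)) (Nat.land (Nat.shiftRight t2 (Nat.mul 32 (Nat.land (Nat.shiftRight C 1080) 1048575))) 4294967295)) (Nat.land (Nat.shiftRight t2 (Nat.mul 32 (Nat.land (Nat.shiftRight C 1100) 1048575))) 4294967295)) (Nat.land (Nat.shiftRight t2 (Nat.mul 32 (Nat.land (Nat.shiftRight C 1120) 1048575))) 4294967295)) (Nat.land (Nat.shiftRight t2 (Nat.mul 32 (Nat.land (Nat.shiftRight C 1140) 1048575))) 4294967295)) (Nat.land (Nat.shiftRight t2 (Nat.mul 32 (Nat.land (Nat.shiftRight C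 1160) 1048575))) 4294967295)) (Nat.land (Nat.shiftRight t2 (Nat.mul 32 (Nat.land (Nat.shiftRight C 1180) 1048575))) 4294967295)

/-- sum of the table entries, unrolled -/
def leafS1 (t1 C : ℕ) : ℕ := Nat.add (Nat.add (Nat.add (Nat.add (Nat.add (Nat.add (Nat.add (Nat.add (Nat.add (Nat.add (Nat.add (Nat.add (Nat.add (Nat.add (Nat.add (Nat.add (Nat.add (Nat.add (Nat.add (Nat.add (Nat.add (Nat.add (Nat.add (Nat.add (Nat.add (Nat.add (Nat.add (Nat.add (Nat.add (Nat.add (Nat.add (Nat.add (Nat.add (Nat.add (Nat.add (Nat.add (Nat.add (Nat.add (Nat.add (Nat.add (Nat.add (Nat.add (Nat.add (Nat.add (Nat.add (Nat.add (Nat.add (Nat.add (Nat.add (Nat.add (Nat.add (Nat.add (Nat.add (Nat.add (Nat.add (Nat.add (Nat.add (Nat.add (Nat.add (Nat.add (0) (Nat.land (Nat.shiftRight t1 (Nat.mul 32 (Nat.land (Nat.shiftRight C 1200) 1048575))) 4294967295)) (Nat.land (Nat.shiftRight t1 (Nat.mul 32 (Nat.land (Nat.shiftRight C 1220) 1048575))) 4294967295)) (Nat.land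 (Nat.shiftRight t1 (Nat.mul 32 (Nat.land (Nat.shiftRight C 1240) 1048575))) 4294967295)) (Nat.land (Nat.shiftRight t1 (Nat.mul 32 (Nat.land (Nat.shiftRight C 1260) 1048575))) 4294967295)) (Nat.land (Nat.shiftRight t1 (Nat.mul 32 (Nat.land (Nat.shiftRight C 1280) 1048575))) 4294967295)) (Nat.land (Nat.shiftRight t1 (Nat.mul 32 (Nat.land (Nat.shiftRight C 1300) 1048575))) 4294967295)) (Nat.land (Nat.shiftRight t1 (Nat.mul 32 (Nat.land (Nat.shiftRight C 1320) 1048575))) 4294967295)) (Nat.land (Nat.shiftRight t1 (Nat.mul 32 (Nat.land (Nat.shiftRight C 1340) 1048575))) 4294967295)) (Nat.land (Nat.shiftRight t1 (Nat.mul 32 (Nat.land (Nat.shiftRight C 1360) 1048575))) 4294967295)) (Nat.land (Nat.shiftRight t1 (Nat.mul 32 (Nat.land (Nat.shiftRight C 1380) 1048575))) 4294967295)) (Nat.land (Nat.shiftRight t1 (Nat.mul 32 (Nat.land (Nat.shiftRight C 1400) 1048575))) 4294967295)) (Nat.land (Nat.shiftRight t1 (Nat.mul 32 (Nat.land (Nat.shiftRight C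 1420) 1048575))) 4294967295)) (Nat.land (Nat.shiftRight t1 (Nat.mul 32 (Nat.land (Nat.shiftRight C 1440) 1048575))) 4294967295)) (Nat.land (Nat.shiftRight t1 (Nat.mul 32 (Nat.land (Nat.shiftRight C 1460) 1048575))) 4294967295)) (Nat.land (Nat.shiftRight t1 (Nat.mul 32 (Nat.land (Nat.shiftRight C 1480) 1048575))) 4294967295)) (Nat.land (Nat.shiftRight t1 (Nat.mul 32 (Nat.land (Nat.shiftRight C 1500) 1048575))) 4294967295)) (Nat.land (Nat.shiftRight t1 (Nat.mul 32 (Nat.land (Nat.shiftRight C 1520) 1048575))) 4294967295)) (Nat.land (Nat.shiftRight t1 (Nat.mul 32 (Nat.land (Nat.shiftRight C 1540) 1048575))) 4294967295)) (Nat.land (Nat.shiftRight t1 (Nat.mul 32 (Nat.land (Nat.shiftRight C 1560) 1048575))) 4294967295)) (Nat.land (Nat.shiftRight t1 (Nat.mul 32 (Nat.land (Nat.shiftRight C 1580) 1048575))) 4294967295)) (Nat.land (Nat.shiftRight t1 (Nat.mul 32 (Nat.land (Nat.shiftRight C 1600) 1048575))) 4294967295)) (Nat.land (Nat.shiftRight t1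 (Nat.mul 32 (Nat.land (Nat.shiftRight C 1620) 1048575))) 4294967295)) (Nat.land (Nat.shiftRight t1 (Nat.mul 32 (Nat.land (Nat.shiftRight C 1640) 1048575))) 4294967295)) (Nat.land (Nat.shiftRight t1 (Nat.mul 32 (Nat.land (Nat.shiftRight C 1660) 1048575))) 4294967295)) (Nat.land (Nat.shiftRight t1 (Nat.mul 32 (Nat.land (Nat.shiftRight C 1680) 1048575))) 4294967295)) (Nat.land (Nat.shiftRight t1 (Nat.mul 32 (Nat.land (Nat.shiftRight C 1700) 1048575))) 4294967295)) (Nat.land (Nat.shiftRight t1 (Nat.mul 32 (Nat.land (Nat.shiftRight C 1720) 1048575))) 4294967295)) (Nat.land (Nat.shiftRight t1 (Nat.mul 32 (Nat.land (Nat.shiftRight C 1740) 1048575))) 4294967295)) (Nat.land (Nat.shiftRight t1 (Nat.mul 32 (Nat.land (Nat.shiftRight C 1760) 1048575))) 4294967295)) (Nat.land (Nat.shiftRight t1 (Nat.mul 32 (Nat.land (Nat.shiftRight C 1780) 1048575))) 4294967295)) (Nat.land (Nat.shiftRight t1 (Nat.mul 32 (Nat.land (Nat.shiftRight C 1800) 1048575))) 4294967295))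 (Nat.land (Nat.shiftRight t1 (Nat.mul 32 (Nat.land (Nat.shiftRight C 1820) 1048575))) 4294967295)) (Nat.land (Nat.shiftRight t1 (Nat.mul 32 (Nat.land (Nat.shiftRight C 1840) 1048575))) 4294967295)) (Nat.land (Nat.shiftRight t1 (Nat.mul 32 (Nat.land (Nat.shiftRight C 1860) 1048575))) 4294967295)) (Nat.land (Nat.shiftRight t1 (Nat.mul 32 (Nat.land (Nat.shiftRight C 1880) 1048575))) 4294967295)) (Nat.land (Nat.shiftRight t1 (Nat.mul 32 (Nat.land (Nat.shiftRight C 1900) 1048575))) 4294967295)) (Nat.land (Nat.shiftRight t1 (Nat.mul 32 (Nat.land (Nat.shiftRight C 1920) 1048575))) 4294967295)) (Nat.land (Nat.shiftRight t1 (Nat.mul 32 (Nat.land (Nat.shiftRight C 1940) 1048575))) 4294967295)) (Nat.land (Nat.shiftRight t1 (Nat.mul 32 (Nat.land (Nat.shiftRight C 1960) 1048575))) 4294967295)) (Nat.land (Nat.shiftRight t1 (Nat.mul 32 (Nat.land (Nat.shiftRight C 1980) 1048575))) 4294967295)) (Nat.land (Nat.shiftRight t1 (Nat.mul 32 (Nat.land (Nat.shiftRight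 C 2000) 1048575))) 4294967295)) (Nat.land (Nat.shiftRight t1 (Nat.mul 32 (Nat.land (Nat.shiftRight C 2020) 1048575))) 4294967295)) (Nat.land (Nat.shiftRight t1 (Nat.mul 32 (Nat.land (Nat.shiftRight C 2040) 1048575))) 4294967295)) (Nat.land (Nat.shiftRight t1 (Nat.mul 32 (Nat.land (Nat.shiftRight C 2060) 1048575))) 4294967295)) (Nat.land (Nat.shiftRight t1 (Nat.mul 32 (Nat.land (Nat.shiftRight C 2080) 1048575))) 4294967295)) (Nat.land (Nat.shiftRight t1 (Nat.mul 32 (Nat.land (Nat.shiftRight C 2100) 1048575))) 4294967295)) (Nat.land (Nat.shiftRight t1 (Nat.mul 32 (Nat.land (Nat.shiftRight C 2120) 1048575))) 4294967295)) (Nat.land (Nat.shiftRight t1 (Nat.mul 32 (Nat.land (Nat.shiftRight C 2140) 1048575))) 4294967295)) (Nat.land (Nat.shiftRight t1 (Nat.mul 32 (Nat.land (Nat.shiftRight C 2160) 1048575))) 4294967295)) (Nat.land (Nat.shiftRight t1 (Nat.mul 32 (Nat.land (Nat.shiftRight C 2180) 1048575))) 4294967295)) (Nat.land (Nat.shiftRight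 t1 (Nat.mul 32 (Nat.land (Nat.shiftRight C 2200) 1048575))) 4294967295)) (Nat.land (Nat.shiftRight t1 (Nat.mul 32 (Nat.land (Nat.shiftRight C 2220) 1048575))) 4294967295)) (Nat.land (Nat.shiftRight t1 (Nat.mul 32 (Nat.land (Nat.shiftRight C 2240) 1048575))) 4294967295)) (Nat.land (Nat.shiftRight t1 (Nat.mul 32 (Nat.land (Nat.shiftRight C 2260) 1048575))) 4294967295)) (Nat.land (Nat.shiftRight t1 (Nat.mul 32 (Nat.land (Nat.shiftRight C 2280) 1048575))) 4294967295)) (Nat.land (Nat.shiftRight t1 (Nat.mul 32 (Nat.land (Nat.shiftRight C 2300) 1048575))) 4294967295)) (Nat.land (Nat.shiftRight t1 (Nat.mul 32 (Nat.land (Nat.shiftRight C 2320) 1048575))) 4294967295)) (Nat.land (Nat.shiftRight t1 (Nat.mul 32 (Nat.land (Nat.shiftRight C 2340) 1048575))) 4294967295)) (Nat.land (Nat.shiftRight t1 (Nat.mul 32 (Nat.land (Nat.shiftRight C 2360) 1048575))) 4294967295)) (Nat.land (Nat.shiftRight t1 (Nat.mul 32 (Nat.land (Nat.shiftRight C 2380) 1048575)))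 4294967295)

/-- the test at a leaf -/
def leaf (t4 : ℕ → ℕ) (t2 t1 C : ℕ) : Bool :=
  (cond (Nat.ble (Nat.add (Nat.land (Nat.shiftRight C 2540) 1048575) 1) (Nat.land (Nat.shiftRight C 2640) 1048575)) true
  (cond (Nat.ble (Nat.add (Nat.land (Nat.shiftRight C 2560) 1048575) 1) (Nat.land (Nat.shiftRight C 2640) 1048575)) true
  (cond (Nat.ble (Nat.add (Nat.land (Nat.shiftRight C 2580) 1048575) 1) (Nat.land (Nat.shiftRight C 2640) 1048575)) true
  (cond (Nat.ble (Nat.add (Nat.land (Nat.shiftRight C 2600) 1048575) 1) (Nat.land (Nat.shiftRight C 2640) 1048575)) true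
  (cond (Nat.ble (Nat.add (Nat.land (Nat.shiftRight C 2620) 1048575) 1) (Nat.land (Nat.shiftRight C 2640) 1048575)) true
  (cond (Nat.beq (Nat.land (Nat.shiftRight C 2420) 1048575) 0) true
  (cond (Nat.beq (Nat.land (Nat.shiftRight C 2440) 1048575) 0) true
  (cond (Nat.beq (Nat.land (Nat.shiftRight C 2460) 1048575) 0) true
  (cond (Nat.beq (Nat.land (Nat.shiftRight C 2480) 1048575) 0) true
  (cond (Nat.beq (Nat.land (Nat.shiftRight C 2500) 1048575) 0) true
  (cond (Nat.beq (Nat.land (Nat.shiftRight C 2520) 1048575) 0) true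
  (Nat.ble (Nat.add (Nat.add (leafS4 t4 C) (Nat.add (leafS2 t2 C) (leafS1 t1 C))) 83376001) (Nat.add (Nat.mul 18000000 (Nat.land (Nat.shiftRight C 2400) 1048575)) 11072962560)))))))))))))

/-- enumeration: `j` runs over the bits below `n` -/
def chk (t4 : ℕ → ℕ) (t2 t1 uu : ℕ) (n : ℕ) : ℕ → Bool :=
  Nat.rec (fun C => leaf t4 t2 t1 C)
    (fun j ih C => cond (ih C) (ih (Nat.add C (dg 2660 uu j))) false) n

theorem leafS4_eq (t4 : ℕ → ℕ) (C : ℕ) : leafS4 t4 C = sumN (fun k => t4 (dg 20 C k)) 15 := rfl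

theorem leafS2_eq (t2 C : ℕ) : leafS2 t2 C = sumN (fun k => dg 32 t2 (dg 20 C (15 + k))) 45 := rfl

theorem leafS1_eq (t1 C : ℕ) : leafS1 t1 C = sumN (fun k => dg 32 t1 (dg 20 C (60 + k))) 60 := rfl

end Pool.Agent.T53
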