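import Pool.Agent.Lib.MP_19b7b8_co_FA.Main

/-!
# MP_19b7b8_co: the limit form of the lower bound
-/

namespace Pool.Agent.T53

open Finset Filter

theorem six_choose (n : ℕ) : 6 * (n.choose 3 : ℝ) ≤ (n : ℝ) ^ 3 := by
  have h := Nat.choose_le_pow_div (α := ℝ) 3 n
  have h3 : ((3 : ℕ).factorial : ℝ) = 6 := by norm_num [Nat.factorial]
  rw [h3] at h
  linarith

theorem limit_bound (T : ℕ → ℕ)
    (hT : ∀ n : ℕ, (579 / 2500 : ℝ) * (n : ℝ) ^ 3 - 3 * (n : ℝ) ^ 2 ≤ 6 * (T n : ℝ)) (L : ℝ)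
    (hL : Tendsto (fun n : ℕ => (T n : ℝ) / ((n.choose 3 : ℕ) : ℝ)) atTop (nhds L)) :
    579 / 2500 ≤ L := by
  have h1 : Tendsto (fun n : ℕ => (579 / 2500 : ℝ) - 3 / (n : ℝ)) atTop (nhds (579 / 2500 - 0)) :=
    tendsto_const_nhds.sub (tendsto_const_div_atTop_nhds_zero_nat 3)
  rw [sub_zero] at h1
  refine le_of_tendsto_of_tendsto h1 hL ?_
  filter_upwards [eventually_ge_atTop 3] with n hn
  have hn0 : (0 : ℝ) < n := by exact_mod_cast (show 0 < n by omega)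
  have hc : (0 : ℝ) < (n.choose 3 : ℝ) := by exact_mod_cast Nat.choose_pos hn
  have h2 := six_choose n
  have h3 := hT n
  have h4 : (0 : ℝ) ≤ T n := Nat.cast_nonneg _
  rw [le_div_iff₀ hc]
  have h5 : ((579 / 2500 : ℝ) - 3 / n) * (n : ℝ) ^ 3 ≤ 6 * T n := by
    have : ((579 / 2500 : ℝ) - 3 / n) * (n : ℝ) ^ 3 =
        (579 / 2500 : ℝ) * (n : ℝ) ^ 3 - 3 * (n : ℝ) ^ 2 := by field_simp
    rw [this]; exact h3
  by_cases h6 : (579 / 2500 : ℝ) - 3 / n ≤ 0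
  · have : ((579 / 2500 : ℝ) - 3 / n) * (n.choose 3 : ℝ) ≤ 0 := mul_nonpos_of_nonpos_of_nonneg h6 hc.le
    linarith
  · rw [not_le] at h6
    have := mul_le_mul_of_nonneg_left h2 h6.le
    linarith

/-- the smallest number of triples -/
theorem sInf_bound (n : ℕ) : (579 / 2500 : ℝ) * (n : ℝ) ^ 3 - 3 * (n : ℝ) ^ 2 ≤
    6 * ((sInf {m : ℕ | ∃ F : Finset (Finset (Fin n)), (∀ e ∈ F, e.card = 3) ∧
      (∀ S : Finset (Fin n), S.card = 5 → ∃ e ∈ F, e ⊆ S) ∧ F.card = m} : ℕ) : ℝ) := by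
  have hne : {m : ℕ | ∃ F : Finset (Finset (Fin n)), (∀ e ∈ F, e.card = 3) ∧
      (∀ S : Finset (Fin n), S.card = 5 → ∃ e ∈ F, e ⊆ S) ∧ F.card = m}.Nonempty := by
    refine ⟨_, powersetCard 3 univ, fun e he => (mem_powersetCard.1 he).2, fun S hS => ?_, rfl⟩
    obtain ⟨e, he, hc⟩ := exists_subset_card_eq (show 3 ≤ S.card by omega)
    exact ⟨e, mem_powersetCard.2 ⟨subset_univ _, hc⟩, he⟩
  obtain ⟨F, h3, h5, hF⟩ := Nat.sInf_mem hne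
  rw [← hF]
  exact lower n F h3 h5

end Pool.Agent.T53
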