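import Pool.Agent.Lib.MP_19b7b8_co_FA.Leaf
import Pool.Agent.Lib.MP_19b7b8_co_FA.Act

/-!
# MP_19b7b8_co: two-level lookups and the check functions for the large table
-/

namespace Pool.Agent.T53

open Finset

theorem tq_eq (k r : ℕ) : tq k r = dg 32 (N5_0 k) r := rfl

theorem tt_eq (k r : ℕ) (hr : r < 1024) : tt (r + 1024 * k) = tq k r := by
  unfold tt
  have e1 : Nat.shiftRight (r + 1024 * k) 10 = k := by
    show (r + 1024 * k) >>> 10 = _
    rw [Nat.shiftRight_eq_div_pow]; omega
  have e2 : Nat.land (r + 1024 * k) 1023 = r := by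
    show (r + 1024 * k) &&& (2 ^ 10 - 1) = _
    rw [Nat.and_two_pow_sub_one_eq_mod]; omega
  rw [e1, e2]

/-- all elements of a list satisfy `P` -/
def AllL (P : ℕ → Prop) (l : List ℕ) : Prop := List.rec True (fun s _ ih => P s ∧ ih) l

theorem AllL_spec {P : ℕ → Prop} {l : List ℕ} (h : AllL P l) : ∀ s ∈ l, P s := by
  induction l with
  | nil => intro s hs; simp at hs
  | cons a l ih =>
    intro s hs
    rcases List.mem_cons.1 hs with rfl | hs
    · exact h.1
    · exact ih h.2 s hs

/-- entries of the vectors of the blocks of type 4, shifted by `2^14` -/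
noncomputable def rv (t j f : ℕ) : ℕ := dg 16 (dg 1024 V4 (Nat.add (Nat.mul 7 t) j)) f

/-- numbers of a block -/
def ixb (b i : ℕ) : ℕ := Nat.add (Nat.mul 16 b) i

/-- check of the Gram identity, for one type and one column -/
noncomputable def ckG1 (t f' : ℕ) : Bool := allN (fun f =>
  Nat.beq (Nat.add (tq f' (Nat.add t (Nat.mul 16 f))) (Nat.mul 16384 (sumN (fun j => Nat.add (rv t j f) (rv t j f')) 7)))
    (Nat.add (sumN (fun j => Nat.mul (rv t j f) (rv t j f')) 7) (Nat.add 1879048192 268435456))) 64

/-- check of the Gram identity, for one type and one block of columns -/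
noncomputable def ckG (t b : ℕ) : Bool := allN (fun i => ckG1 t (ixb b i)) 16

/-- permutation of the bits -/
noncomputable def at4 (a i : ℕ) : ℕ := dg 4 AT4 (Nat.add (Nat.mul 4 a) i)
/-- permutation of the bits -/
noncomputable def af4 (a i : ℕ) : ℕ := dg 4 AF4 (Nat.add (Nat.mul 6 a) i)

/-- check of the invariance of the table, for one type and one column -/
noncomputable def ckI1 (a t f' : ℕ) : Bool := allN (fun f =>
  Nat.beq (tq (pm (af4 a) 6 f') (Nat.add (pm (at4 a) 4 t) (Nat.mul 16 (pm (af4 a) 6 f))))
    (tq f' (Nat.add t (Nat.mul 16 f)))) 64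

/-- check of the invariance of the table, for one type and one block of columns -/
noncomputable def ckI (a t b : ℕ) : Bool := allN (fun i => ckI1 a t (ixb b i)) 16

end Pool.Agent.T53
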