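import Mathlib

/-!
# MP_19b7b8_co: optimal weights have constant degrees
-/

namespace Pool.Agent.T53

open Finset

variable {V : Type*} [Fintype V]

/-- trilinear form of a symmetric kernel -/
def tri (k : V → V → V → ℝ) (u v w : V → ℝ) : ℝ := ∑ x, ∑ y, ∑ z, u x * v y * w z * k x y z

theorem tri_add_smul (k : V → V → V → ℝ) (h12 : ∀ x y z, k x y z = k y x z)
    (h23 : ∀ x y z, k x y z = k x z y) (w h : V → ℝ) (e : ℝ) :
    tri k (fun x => w x + e * h x) (fun x => w x + e * h x) (fun x => w x + e * h x) =
      tri k w w w + 3 * e * tri k h w w + 3 * e ^ 2 * tri k h h w + e ^ 3 * tri k h h h := by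
  have a1 : tri k w h w = tri k h w w := by
    unfold tri
    rw [sum_comm]
    exact sum_congr rfl fun x _ => sum_congr rfl fun y _ => sum_congr rfl fun z _ => by
      rw [h12]; ring
  have a2 : tri k w w h = tri k h w w := by
    rw [← a1]
    unfold tri
    refine sum_congr rfl fun x _ => ?_
    rw [sum_comm]
    exact sum_congr rfl fun y _ => sum_congr rfl fun z _ => by rw [h23]; ring
  have a3 : tri k h w h = tri k h h w := by
    unfold tri
    refine sum_congr rfl fun x _ => ?_
    rw [sum_comm]
    exact sum_congr rfl fun y _ => sum_congr rfl fun z _ => by rw [h23]; ring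
  have a4 : tri k w h h = tri k h h w := by
    rw [← a3]
    unfold tri
    rw [sum_comm]
    exact sum_congr rfl fun x _ => sum_congr rfl fun y _ => sum_congr rfl fun z _ => by
      rw [h12]; ring
  have e0 : tri k (fun x => w x + e * h x) (fun x => w x + e * h x) (fun x => w x + e * h x) =
      tri k w w w + e * (tri k h w w + tri k w h w + tri k w w h) +
        e ^ 2 * (tri k h h w + tri k h w h + tri k w h h) + e ^ 3 * tri k h h h := by
    unfold tri
    simp only [mul_sum, ← sum_add_distrib]
    exact sum_congr rfl fun x _ => sum_congr rfl fun y _ => sum_congr rfl fun z _ => by ring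
  rw [e0, a1, a2, a3, a4]
  ring

theorem lin_nonneg (a b d m : ℝ) (hm : 0 < m)
    (h : ∀ e, 0 ≤ e → e ≤ m → 0 ≤ 3 * e * a + 3 * e ^ 2 * b + e ^ 3 * d) : 0 ≤ a := by
  by_contra ha
  rw [not_le] at ha
  set K := 3 * |b| + |d| + 1 with hK
  have hK0 : 0 < K := by positivity
  set e := min (min m 1) (-a / K) with he
  have h1 : 0 < -a / K := div_pos (by linarith) hK0
  have e0 : 0 < e := lt_min (lt_min hm one_pos) h1
  have e1 : e ≤ m := (min_le_left _ _).trans (min_le_left _ _)
  have e2 : e ≤ 1 := (min_le_left _ _).trans (min_le_right _ _)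
  have e3 : e * K ≤ -a := by
    have := min_le_right (min m 1) (-a / K)
    rw [← he] at this
    rwa [le_div_iff₀ hK0] at this
  have h2 := h e e0.le e1
  have h3 : 3 * e ^ 2 * b ≤ e ^ 2 * (3 * |b|) := by
    have := le_abs_self b
    nlinarith [sq_nonneg e]
  have h4 : e ^ 3 * d ≤ e ^ 2 * |d| := by
    have hd := le_abs_self d
    have hd0 := abs_nonneg d
    have : e ^ 3 * d ≤ e ^ 3 * |d| := mul_le_mul_of_nonneg_left hd (by positivity)
    have h5 : e ^ 3 * |d| ≤ e ^ 2 * |d| := by
      refine mul_le_mul_of_nonneg_right ?_ hd0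
      nlinarith [sq_nonneg e]
    linarith
  have h5 : e ^ 2 * (3 * |b|) + e ^ 2 * |d| = e ^ 2 * K - e ^ 2 := by rw [hK]; ring
  have h6 : e ^ 2 * K ≤ e * (-a) := by
    have := mul_le_mul_of_nonneg_left e3 e0.le
    nlinarith
  have h7 : 0 < e ^ 2 := by positivity
  nlinarith

/-- there are optimal weights, and their degrees are constant on the support -/
theorem exists_regular [Nonempty V] (k : V → V → V → ℝ) (h12 : ∀ x y z, k x y z = k y x z)
    (h23 : ∀ x y z, k x y z = k x z y) (u : V → ℝ) (hu : u ∈ stdSimplex ℝ V) :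
    ∃ w ∈ stdSimplex ℝ V, ∃ D : ℝ, D ≤ tri k u u u ∧
      ∀ x, w x ≠ 0 → ∑ y, ∑ z, w y * w z * k x y z = D := by
  classical
  have hcont : Continuous fun w : V → ℝ => tri k w w w := by
    unfold tri
    fun_prop
  obtain ⟨w, hw, hmin⟩ := (isCompact_stdSimplex ℝ V).exists_isMinOn ⟨u, hu⟩ hcont.continuousOn
  have hw0 : ∀ x, 0 ≤ w x := hw.1
  have hw1 : ∑ x, w x = 1 := hw.2
  set dg : V → ℝ := fun x => ∑ y, ∑ z, w y * w z * k x y z with hdg
  have hlin : ∀ h : V → ℝ, tri k h w w = ∑ x, h x * dg x := by
    intro h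
    unfold tri
    refine sum_congr rfl fun x _ => ?_
    rw [hdg, mul_sum]
    refine sum_congr rfl fun y _ => ?_
    rw [mul_sum]
    exact sum_congr rfl fun z _ => by ring
  have key : ∀ x, w x ≠ 0 → ∀ y, dg x ≤ dg y := by
    intro x hx y
    have hxp : 0 < w x := lt_of_le_of_ne (hw0 x) (Ne.symm hx)
    set h : V → ℝ := Pi.single y 1 - Pi.single x 1 with hh
    have hsum : ∑ v, h v = 0 := by
      rw [hh]; simp [Finset.sum_sub_distrib]
    have hl : ∑ v, h v * dg v = dg y - dg x := by
      have : ∀ v, h v * dg v = (Pi.single y 1 : V → ℝ) v * dg v - (Pi.single x 1 : V → ℝ) v * dg v := by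
        intro v; rw [hh]; simp only [Pi.sub_apply]; ring
      simp only [this, sum_sub_distrib]
      simp [Pi.single_apply]
    have hn := lin_nonneg (dg y - dg x) (tri k h h w) (tri k h h h) (w x) hxp (fun e e0 e1 => by
      have hmem : (fun v => w v + e * h v) ∈ stdSimplex ℝ V := by
        constructor
        · intro v
          have hv : -1 * (if v = x then (1 : ℝ) else 0) ≤ h v := by
            rw [hh]
            simp only [Pi.sub_apply, Pi.single_apply]
            split_ifs <;> norm_num
          by_cases hvx : v = x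
          · subst hvx
            simp only [if_true] at hv
            nlinarith
          · simp only [if_neg hvx] at hv
            have := hw0 v
            nlinarith
        · rw [sum_add_distrib, hw1, ← mul_sum, hsum]; ring
      have h1 := hmin hmem
      have h2 : tri k w w w ≤ tri k (fun v => w v + e * h v) (fun v => w v + e * h v)
        (fun v => w v + e * h v) := h1
      rw [tri_add_smul k h12 h23 w h e, hlin h, hl] at h2
      linarith)
    linarith
  obtain ⟨x0, hx0⟩ : ∃ x, w x ≠ 0 := by
    by_contra hcon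
    have hcon' : ∀ x, w x = 0 := by
      intro x; by_contra hx; exact hcon ⟨x, hx⟩
    simp [hcon'] at hw1
  have hconst : ∀ x, w x ≠ 0 → dg x = dg x0 := fun x hx =>
    le_antisymm (key x hx x0) (key x0 hx0 x)
  refine ⟨w, hw, dg x0, ?_, fun x hx => hconst x hx⟩
  have h1 : tri k w w w = dg x0 := by
    rw [hlin w]
    have : ∀ x, w x * dg x = w x * dg x0 := fun x => by
      by_cases hx : w x = 0
      · rw [hx, zero_mul, zero_mul]
      · rw [hconst x hx]
    simp only [this, ← sum_mul, hw1, one_mul]
  rw [← h1]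
  exact hmin hu

end Pool.Agent.T53
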