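import Pool.Agent.Lib.MP_19b7b8_co_FA.Blocks
import Pool.Agent.Lib.MP_19b7b8_co_FA.Opt

/-!
# MP_19b7b8_co: the lower bound for systems of triples
-/

namespace Pool.Agent.T53

open Finset Filter

variable {n : ℕ}

/-- the relation of a system of triples: related, or not all distinct -/
def rel (F : Finset (Finset (Fin n))) (x y z : Fin n) : Bool :=
  decide (x = y ∨ y = z ∨ x = z ∨ ({x, y, z} : Finset (Fin n)) ∈ F)

theorem rel_sys (F : Finset (Finset (Fin n))) (h3 : ∀ e ∈ F, e.card = 3)
    (h5 : ∀ S : Finset (Fin n), S.card = 5 → ∃ e ∈ F, e ⊆ S) : Sys (rel F) := by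
  classical
  refine ⟨fun x y z => ?_, fun x y z => ?_, fun φ => ?_⟩
  · unfold rel
    have e : ({x, y, z} : Finset (Fin n)) = {y, x, z} := by
      ext v; simp only [mem_insert, mem_singleton]; tauto
    rw [e]
    congr 1
    apply propext
    constructor <;> rintro (h | h | h | h)
    · exact Or.inl h.symm
    · exact Or.inr (Or.inr (Or.inl h))
    · exact Or.inr (Or.inl h)
    · exact Or.inr (Or.inr (Or.inr h))
    · exact Or.inl h.symm
    · exact Or.inr (Or.inr (Or.inl h))
    · exact Or.inr (Or.inl h)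
    · exact Or.inr (Or.inr (Or.inr h))
  · unfold rel
    have e : ({x, y, z} : Finset (Fin n)) = {x, z, y} := by
      ext v; simp only [mem_insert, mem_singleton]; tauto
    rw [e]
    congr 1
    apply propext
    constructor <;> rintro (h | h | h | h)
    · exact Or.inr (Or.inr (Or.inl h))
    · exact Or.inr (Or.inl h.symm)
    · exact Or.inl h
    · exact Or.inr (Or.inr (Or.inr h))
    · exact Or.inr (Or.inr (Or.inl h))
    · exact Or.inr (Or.inl h.symm)
    · exact Or.inl h
    · exact Or.inr (Or.inr (Or.inr h))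
  · by_cases hφ : Function.Injective φ
    · obtain ⟨e, he, hsub⟩ := h5 (univ.map ⟨φ, hφ⟩) (by simp)
      have hcard := h3 e he
      set T : Finset (Fin 5) := univ.filter fun i => φ i ∈ e with hT
      have himg : T.image φ = e := by
        ext v
        simp only [mem_image, hT, mem_filter, mem_univ, true_and]
        constructor
        · rintro ⟨i, hi, rfl⟩; exact hi
        · intro hv
          have := hsub hv
          simp only [Finset.mem_map, mem_univ, true_and, Function.Embedding.coeFn_mk] at this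
          obtain ⟨i, rfl⟩ := this
          exact ⟨i, hv, rfl⟩
      have hTc : T.card = 3 := by
        rw [← hcard, ← himg, card_image_of_injective _ hφ]
      set g := T.orderEmbOfFin hTc with hg
      have hrange : Set.range g = (T : Set (Fin 5)) := T.range_orderEmbOfFin hTc
      refine ⟨g 0, g 1, g 2, g.strictMono (by decide), g.strictMono (by decide), ?_⟩
      have hset : ({φ (g 0), φ (g 1), φ (g 2)} : Finset (Fin n)) = e := by
        rw [← himg]
        ext v
        simp only [mem_insert, mem_singleton, mem_image]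
        constructor
        · have hm (i : Fin 3) : g i ∈ T := T.orderEmbOfFin_mem hTc i
          rintro (rfl | rfl | rfl)
          · exact ⟨_, hm 0, rfl⟩
          · exact ⟨_, hm 1, rfl⟩
          · exact ⟨_, hm 2, rfl⟩
        · rintro ⟨i, hi, rfl⟩
          have : i ∈ Set.range g := by rw [hrange]; exact hi
          obtain ⟨j, rfl⟩ := this
          fin_cases j
          · exact Or.inl rfl
          · exact Or.inr (Or.inl rfl)
          · exact Or.inr (Or.inr rfl)
      unfold rel
      rw [hset]
      simp [he]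
    · have hne : ∃ i j : Fin 5, i < j ∧ φ i = φ j := by
        by_contra hcon
        apply hφ
        intro i j hij
        by_contra hne
        rcases lt_or_gt_of_ne hne with h | h
        · exact hcon ⟨i, j, h, hij⟩
        · exact hcon ⟨j, i, h, hij.symm⟩
      obtain ⟨i, j, hij, he⟩ := hne
      by_cases hj : j < 4
      · exact ⟨i, j, 4, hij, hj, by unfold rel; simp [he]⟩
      · have hj4 : j = 4 := by
          have : j.val < 5 := j.isLt
          have h4 : ¬ j.val < 4 := hj
          exact Fin.ext (by show j.val = 4; omega)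
        subst hj4
        by_cases hi : i < 3
        · exact ⟨i, 3, 4, hi, by decide, by unfold rel; simp [he]⟩
        · have hi3 : i = 3 := by
            have h1 : i.val < 4 := hij
            have h2 : ¬ i.val < 3 := hi
            exact Fin.ext (by show i.val = 3; omega)
          subst hi3
          exact ⟨0, 3, 4, by decide, by decide, by unfold rel; simp [he]⟩

theorem card_triples (e : Finset (Fin n)) (he : e.card = 3) :
    ((univ : Finset (Fin n × Fin n × Fin n)).filter fun p => ({p.1, p.2.1, p.2.2} : Finset (Fin n)) = e).card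
      ≤ 6 := by
  classical
  obtain ⟨a, b, d, hab, had, hbd, rfl⟩ := card_eq_three.1 he
  have hsub : ((univ : Finset (Fin n × Fin n × Fin n)).filter
      fun p => ({p.1, p.2.1, p.2.2} : Finset (Fin n)) = {a, b, d}) ⊆
      {(a, b, d), (a, d, b), (b, a, d), (b, d, a), (d, a, b), (d, b, a)} := by
    rintro ⟨x, y, z⟩ hp
    simp only [mem_filter, mem_univ, true_and] at hp
    have hx : x ∈ ({a, b, d} : Finset (Fin n)) := by rw [← hp]; simp
    have hy : y ∈ ({a, b, d} : Finset (Fin n)) := by rw [← hp]; simp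
    have hz : z ∈ ({a, b, d} : Finset (Fin n)) := by rw [← hp]; simp
    have ha : a ∈ ({x, y, z} : Finset (Fin n)) := by rw [hp]; simp
    have hb : b ∈ ({x, y, z} : Finset (Fin n)) := by rw [hp]; simp
    have hd : d ∈ ({x, y, z} : Finset (Fin n)) := by rw [hp]; simp
    simp only [mem_insert, mem_singleton] at hx hy hz ha hb hd
    simp only [mem_insert, mem_singleton, Prod.mk.injEq]
    rcases hx with rfl | rfl | rfl <;> rcases hy with rfl | rfl | rfl <;>
      rcases hz with rfl | rfl | rfl <;> simp_all <;>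
      (rcases hd with h | h | h <;> simp_all)
  exact (card_le_card hsub).trans (card_le_six)

theorem swap3 (F : Finset (Finset (Fin n))) (G : Finset (Fin n) → Fin n → Fin n → Fin n → ℝ) :
    ∑ e ∈ F, ∑ x, ∑ y, ∑ z, G e x y z = ∑ x, ∑ y, ∑ z, ∑ e ∈ F, G e x y z := by
  rw [sum_comm]
  refine sum_congr rfl fun x _ => ?_
  rw [sum_comm]
  refine sum_congr rfl fun y _ => ?_
  exact sum_comm

theorem tri_uniform (F : Finset (Finset (Fin n))) (h3 : ∀ e ∈ F, e.card = 3) :
    ∑ x, ∑ y, ∑ z, ((rel F x y z).toNat : ℝ) ≤ 6 * F.card + 3 * (n : ℝ) ^ 2 := by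
  classical
  have h1 : ∀ x y z : Fin n, ((rel F x y z).toNat : ℝ) ≤
      ((if x = y then 1 else 0) + (if y = z then 1 else 0) + (if x = z then 1 else 0)) +
        ∑ e ∈ F, (if ({x, y, z} : Finset (Fin n)) = e then (1 : ℝ) else 0) := by
    intro x y z
    have hs : 0 ≤ ∑ e ∈ F, (if ({x, y, z} : Finset (Fin n)) = e then (1 : ℝ) else 0) :=
      sum_nonneg fun e _ => by split_ifs <;> norm_num
    have b1 : 0 ≤ (if x = y then (1 : ℝ) else 0) := by split_ifs <;> norm_num
    have b2 : 0 ≤ (if y = z then (1 : ℝ) else 0) := by split_ifs <;> norm_num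
    have b3 : 0 ≤ (if x = z then (1 : ℝ) else 0) := by split_ifs <;> norm_num
    by_cases hr : rel F x y z = true
    · rw [hr]
      unfold rel at hr
      have hr' := of_decide_eq_true hr
      simp only [Bool.toNat_true, Nat.cast_one]
      rcases hr' with h | h | h | h
      · rw [if_pos h] at b1 ⊢; linarith
      · rw [if_pos h] at b2 ⊢; linarith
      · rw [if_pos h] at b3 ⊢; linarith
      · have : (1 : ℝ) = ∑ e ∈ F, (if ({x, y, z} : Finset (Fin n)) = e then (1 : ℝ) else 0) := by
          rw [sum_ite_eq, if_pos h]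
        linarith
    · have hr' : rel F x y z = false := by simpa using hr
      rw [hr']
      simp only [Bool.toNat_false, Nat.cast_zero]
      linarith
  refine (sum_le_sum fun x _ => sum_le_sum fun y _ => sum_le_sum fun z _ => h1 x y z).trans ?_
  simp only [sum_add_distrib]
  have s1 : ∑ x : Fin n, ∑ y : Fin n, ∑ _z : Fin n, (if x = y then (1 : ℝ) else 0) = (n : ℝ) ^ 2 := by
    simp [pow_two]
  have s2 : ∑ _x : Fin n, ∑ y : Fin n, ∑ z : Fin n, (if y = z then (1 : ℝ) else 0) = (n : ℝ) ^ 2 := by
    simp [pow_two]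
  have s3 : ∑ x : Fin n, ∑ _y : Fin n, ∑ z : Fin n, (if x = z then (1 : ℝ) else 0) = (n : ℝ) ^ 2 := by
    simp [pow_two]
  have s4 : ∑ x : Fin n, ∑ y : Fin n, ∑ z : Fin n,
      ∑ e ∈ F, (if ({x, y, z} : Finset (Fin n)) = e then (1 : ℝ) else 0) ≤ 6 * F.card := by
    have e1 : ∑ x : Fin n, ∑ y : Fin n, ∑ z : Fin n,
        ∑ e ∈ F, (if ({x, y, z} : Finset (Fin n)) = e then (1 : ℝ) else 0) =
        ∑ e ∈ F, (((univ : Finset (Fin n × Fin n × Fin n)).filter
          fun p => ({p.1, p.2.1, p.2.2} : Finset (Fin n)) = e).card : ℝ) := by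
      have e2 : ∀ e : Finset (Fin n), (((univ : Finset (Fin n × Fin n × Fin n)).filter
          fun p => ({p.1, p.2.1, p.2.2} : Finset (Fin n)) = e).card : ℝ) =
          ∑ x : Fin n, ∑ y : Fin n, ∑ z : Fin n, (if ({x, y, z} : Finset (Fin n)) = e then (1 : ℝ) else 0) := by
        intro e
        rw [card_filter]
        push_cast
        rw [Fintype.sum_prod_type]
        exact sum_congr rfl fun x _ => by rw [Fintype.sum_prod_type]
      simp only [e2]
      exact (swap3 F _).symm
    rw [e1]
    calc ∑ e ∈ F, (((univ : Finset (Fin n × Fin n × Fin n)).filter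
          fun p => ({p.1, p.2.1, p.2.2} : Finset (Fin n)) = e).card : ℝ) ≤ ∑ e ∈ F, (6 : ℝ) :=
          sum_le_sum fun e he => by exact_mod_cast card_triples e (h3 e he)
      _ = 6 * F.card := by rw [sum_const, nsmul_eq_mul]; ring
  rw [s1, s2, s3]
  linarith

/-- the lower bound for every finite system -/
theorem lower (n : ℕ) (F : Finset (Finset (Fin n))) (h3 : ∀ e ∈ F, e.card = 3)
    (h5 : ∀ S : Finset (Fin n), S.card = 5 → ∃ e ∈ F, e ⊆ S) :
    (579 / 2500 : ℝ) * (n : ℝ) ^ 3 - 3 * (n : ℝ) ^ 2 ≤ 6 * (F.card : ℝ) := by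
  rcases Nat.eq_zero_or_pos n with h0 | hn
  · subst h0; simp
  have : Nonempty (Fin n) := ⟨⟨0, hn⟩⟩
  have hc := rel_sys F h3 h5
  have hn' : (0 : ℝ) < n := by exact_mod_cast hn
  have hu : (fun _ : Fin n => (1 : ℝ) / n) ∈ stdSimplex ℝ (Fin n) := by
    refine ⟨fun _ => by positivity, ?_⟩
    simp [hn'.ne']
  obtain ⟨w, hw, D, hD, hreg⟩ := exists_regular (fun x y z => ((rel F x y z).toNat : ℝ))
    (fun x y z => by rw [hc.s12]) (fun x y z => by rw [hc.s23]) _ hu
  have hb := regular_bound w hw.1 hw.2 hc D (fun x hx => hreg x hx)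
  have h1 : tri (fun x y z => ((rel F x y z).toNat : ℝ)) (fun _ : Fin n => (1 : ℝ) / n)
      (fun _ => 1 / n) (fun _ => 1 / n) = (∑ x, ∑ y, ∑ z, ((rel F x y z).toNat : ℝ)) / (n : ℝ) ^ 3 := by
    unfold tri
    simp only [← mul_sum]
    field_simp
  rw [h1] at hD
  have h2 := tri_uniform F h3
  have h3' : D * (n : ℝ) ^ 3 ≤ ∑ x, ∑ y, ∑ z, ((rel F x y z).toNat : ℝ) := by
    rwa [le_div_iff₀ (by positivity)] at hD
  have h4 : (579 / 2500 : ℝ) * (n : ℝ) ^ 3 ≤ D * (n : ℝ) ^ 3 :=
    mul_le_mul_of_nonneg_right hb.le (by positivity)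
  linarith

end Pool.Agent.T53
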