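import Pool.Agent.Lib.MP_19b7b8_co_FA.Act

/-!
# MP_19b7b8_co: sampling six vertices
-/

namespace Pool.Agent.T53

open Finset

variable {V : Type*}

/-- a symmetric ternary relation such that every 5-tuple contains a related triple -/
structure Sys (c : V → V → V → Bool) : Prop where
  s12 : ∀ x y z, c x y z = c y x z
  s23 : ∀ x y z, c x y z = c x z y
  p5 : ∀ φ : Fin 5 → V, ∃ i j k, i < j ∧ j < k ∧ c (φ i) (φ j) (φ k) = true

/-- the vertex with a given number -/
def fn (i : ℕ) : Fin 6 := ⟨i % 6, Nat.mod_lt _ (by norm_num)⟩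

theorem fn_val (i : ℕ) (hi : i < 6) : (fn i).val = i := Nat.mod_eq_of_lt hi

theorem fn_fin (i : Fin 6) : fn i.val = i := Fin.ext (Nat.mod_eq_of_lt i.isLt)

/-- the bits of a sample -/
noncomputable def bX (c : V → V → V → Bool) (X : Fin 6 → V) (j : ℕ) : ℕ :=
  (c (X (fn (ta j))) (X (fn (tb j))) (X (fn (tc j)))).toNat

/-- the code of a sample -/
noncomputable def gX (c : V → V → V → Bool) (X : Fin 6 → V) : ℕ := mk (bX c X) 20

theorem bX_lt (c : V → V → V → Bool) (X : Fin 6 → V) (j : ℕ) : bX c X j < 2 := by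
  unfold bX; cases c (X (fn (ta j))) (X (fn (tb j))) (X (fn (tc j))) <;> simp

theorem gX_lt (c : V → V → V → Bool) (X : Fin 6 → V) : gX c X < 2 ^ 20 :=
  mk_lt _ _ fun i _ => bX_lt c X i

theorem bt_gX (c : V → V → V → Bool) (X : Fin 6 → V) (j : ℕ) (hj : j < 20) :
    bt (gX c X) j = bX c X j := bt_mk _ 20 (fun i _ => bX_lt c X i) j hj

theorem ckI3 : allN (fun a => allN (fun b => allN (fun e =>
    Bool.or (Bool.not (Bool.and (Nat.ble (Nat.add a 1) b) (Nat.ble (Nat.add b 1) e)))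
      (Bool.and (Bool.and (Nat.beq (ta (idx a b e)) a) (Nat.beq (tb (idx a b e)) b))
        (Bool.and (Nat.beq (tc (idx a b e)) e) (Nat.ble (Nat.add (idx a b e) 1) 20)))) 6) 6) 6 = true := by
  decide +kernel

theorem ckIs : allN (fun a => allN (fun b => allN (fun e =>
    Bool.and (Nat.beq (idx a b e) (idx b a e)) (Nat.beq (idx a b e) (idx a e b))) 6) 6) 6 = true := by
  decide +kernel

theorem idx_sorted {a b e : ℕ} (h1 : a < b) (h2 : b < e) (h3 : e < 6) :
    ta (idx a b e) = a ∧ tb (idx a b e) = b ∧ tc (idx a b e) = e ∧ idx a b e < 20 := by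
  have h := (allN_iff _ _).1 ((allN_iff _ _).1 ((allN_iff _ _).1 ckI3 a (by omega)) b (by omega)) e h3
  have e1 : Nat.ble (Nat.add a 1) b = true := Nat.ble_eq_true_of_le h1
  have e2 : Nat.ble (Nat.add b 1) e = true := Nat.ble_eq_true_of_le h2
  rw [e1, e2] at h
  simp only [Bool.and_self, Bool.not_true, Bool.false_or, Bool.and_eq_true] at h
  exact ⟨Nat.eq_of_beq_eq_true h.1.1, Nat.eq_of_beq_eq_true h.1.2, Nat.eq_of_beq_eq_true h.2.1,
    Nat.le_of_ble_eq_true h.2.2⟩

theorem idx_12 {a b e : ℕ} (h1 : a < 6) (h2 : b < 6) (h3 : e < 6) : idx a b e = idx b a e := by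
  have h := (allN_iff _ _).1 ((allN_iff _ _).1 ((allN_iff _ _).1 ckIs a h1) b h2) e h3
  rw [Bool.and_eq_true] at h
  exact Nat.eq_of_beq_eq_true h.1

theorem idx_23 {a b e : ℕ} (h1 : a < 6) (h2 : b < 6) (h3 : e < 6) : idx a b e = idx a e b := by
  have h := (allN_iff _ _).1 ((allN_iff _ _).1 ((allN_iff _ _).1 ckIs a h1) b h2) e h3
  rw [Bool.and_eq_true] at h
  exact Nat.eq_of_beq_eq_true h.2

theorem cidx_sorted (c : V → V → V → Bool) (X : Fin 6 → V) {a b e : ℕ} (h1 : a < b) (h2 : b < e)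
    (h3 : e < 6) : (c (X (fn a)) (X (fn b)) (X (fn e))).toNat = bX c X (idx a b e) := by
  obtain ⟨e1, e2, e3, _⟩ := idx_sorted h1 h2 h3
  unfold bX
  rw [e1, e2, e3]

theorem cidx {c : V → V → V → Bool} (hc : Sys c) (X : Fin 6 → V) {a b e : ℕ} (ha : a < 6) (hb : b < 6)
    (he : e < 6) (hab : a ≠ b) (hae : a ≠ e) (hbe : b ≠ e) :
    (c (X (fn a)) (X (fn b)) (X (fn e))).toNat = bX c X (idx a b e) := by
  rcases lt_or_gt_of_ne hab with h1 | h1 <;> rcases lt_or_gt_of_ne hae with h2 | h2 <;>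
    rcases lt_or_gt_of_ne hbe with h3 | h3
  · exact cidx_sorted c X h1 h3 he
  · rw [hc.s23, idx_23 ha hb he]; exact cidx_sorted c X h2 h3 hb
  · omega
  · rw [hc.s23, hc.s12, idx_23 ha hb he, idx_12 ha he hb]; exact cidx_sorted c X h2 h1 hb
  · rw [hc.s12, idx_12 ha hb he]; exact cidx_sorted c X h1 h2 he
  · omega
  · rw [hc.s12, hc.s23, idx_12 ha hb he, idx_23 hb ha he]; exact cidx_sorted c X h3 h2 ha
  · rw [hc.s12, hc.s23, hc.s12, idx_12 ha hb he, idx_23 hb ha he, idx_12 hb he ha]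
    exact cidx_sorted c X h3 h1 ha

theorem idx_lt {a b e : ℕ} (ha : a < 6) (hb : b < 6)
    (he : e < 6) (hab : a ≠ b) (hae : a ≠ e) (hbe : b ≠ e) : idx a b e < 20 := by
  rcases lt_or_gt_of_ne hab with h1 | h1 <;> rcases lt_or_gt_of_ne hae with h2 | h2 <;>
    rcases lt_or_gt_of_ne hbe with h3 | h3
  · exact (idx_sorted h1 h3 he).2.2.2
  · rw [idx_23 ha hb he]; exact (idx_sorted h2 h3 hb).2.2.2
  · omega
  · rw [idx_23 ha hb he, idx_12 ha he hb]; exact (idx_sorted h2 h1 hb).2.2.2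
  · rw [idx_12 ha hb he]; exact (idx_sorted h1 h2 he).2.2.2
  · omega
  · rw [idx_12 ha hb he, idx_23 hb ha he]; exact (idx_sorted h3 h2 ha).2.2.2
  · rw [idx_12 ha hb he, idx_23 hb ha he, idx_12 hb he ha]
    exact (idx_sorted h3 h1 ha).2.2.2

theorem ckT : allN (fun j => Bool.and (Bool.and (Nat.ble (Nat.add (ta j) 1) (tb j))
    (Nat.ble (Nat.add (tb j) 1) (tc j))) (Nat.ble (Nat.add (tc j) 1) 6)) 20 = true := by
  decide +kernel

theorem tri_lt {j : ℕ} (hj : j < 20) : ta j < tb j ∧ tb j < tc j ∧ tc j < 6 := by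
  have h := (allN_iff _ _).1 ckT j hj
  simp only [Bool.and_eq_true] at h
  exact ⟨Nat.le_of_ble_eq_true h.1.1, Nat.le_of_ble_eq_true h.1.2, Nat.le_of_ble_eq_true h.2⟩

/-- `p` codes a permutation -/
def okP (p : ℕ) : Bool := allN (fun i => Bool.and (Nat.ble (Nat.add (pv p i) 1) 6)
  (allN (fun j => Bool.or (Bool.not (Nat.beq (pv p i) (pv p j))) (Nat.beq i j)) 6)) 6

theorem okP_lt {p : ℕ} (h : okP p = true) {i : ℕ} (hi : i < 6) : pv p i < 6 := by
  have h1 := (allN_iff _ _).1 h i hi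
  rw [Bool.and_eq_true] at h1
  exact Nat.le_of_ble_eq_true h1.1

theorem okP_inj {p : ℕ} (h : okP p = true) {i j : ℕ} (hi : i < 6) (hj : j < 6)
    (hij : pv p i = pv p j) : i = j := by
  have h1 := (allN_iff _ _).1 h i hi
  rw [Bool.and_eq_true] at h1
  have h2 := (allN_iff _ _).1 h1.2 j hj
  rw [hij] at h2
  have h3 : Nat.beq (pv p j) (pv p j) = true := by
    have : pv p j = pv p j := rfl
    exact Nat.beq_refl _
  rw [h3] at h2
  exact Nat.eq_of_beq_eq_true (by simpa using h2)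

/-- the permutation as a function -/
def pfun (p : ℕ) (i : Fin 6) : Fin 6 := fn (pv p i.val)

theorem pfun_bij {p : ℕ} (h : okP p = true) : Function.Bijective (pfun p) := by
  rw [← Finite.injective_iff_bijective]
  intro i j hij
  have h1 := congrArg Fin.val hij
  unfold pfun at h1
  rw [fn_val _ (okP_lt h i.isLt), fn_val _ (okP_lt h j.isLt)] at h1
  exact Fin.ext (okP_inj h i.isLt j.isLt h1)

theorem gX_perm {c : V → V → V → Bool} (hc : Sys c) {p : ℕ} (h : okP p = true) (X : Fin 6 → V) :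
    gX c (X ∘ pfun p) = act p (gX c X) := by
  refine eq_of_bt 20 _ _ (gX_lt _ _) (act_lt _ _) fun j hj => ?_
  obtain ⟨h1, h2, h3⟩ := tri_lt hj
  have a1 := okP_lt h (show ta j < 6 by omega)
  have a2 := okP_lt h (show tb j < 6 by omega)
  have a3 := okP_lt h (show tc j < 6 by omega)
  have n12 : pv p (ta j) ≠ pv p (tb j) := fun e => by
    have := okP_inj h (show ta j < 6 by omega) (show tb j < 6 by omega) e; omega
  have n13 : pv p (ta j) ≠ pv p (tc j) := fun e => by
    have := okP_inj h (show ta j < 6 by omega) (show tc j < 6 by omega) e; omega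
  have n23 : pv p (tb j) ≠ pv p (tc j) := fun e => by
    have := okP_inj h (show tb j < 6 by omega) (show tc j < 6 by omega) e; omega
  rw [bt_gX _ _ _ hj, bt_act _ _ _ hj]
  unfold sel
  rw [bt_gX _ _ _ (idx_lt a1 a2 a3 n12 n13 n23), ← cidx hc X a1 a2 a3 n12 n13 n23]
  unfold bX pfun
  simp only [Function.comp]
  rw [fn_val _ (show ta j < 6 by omega), fn_val _ (show tb j < 6 by omega), fn_val _ (show tc j < 6 by omega)]

theorem ckFS : allN (fun v => allN (fun a => allN (fun b => allN (fun e =>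
    Bool.or (Bool.not (Bool.and (Bool.and (Nat.ble (Nat.add a 1) b) (Nat.ble (Nat.add b 1) e))
      (Bool.and (Bool.not (Nat.beq a v)) (Bool.and (Bool.not (Nat.beq b v)) (Bool.not (Nat.beq e v))))))
      (inFS v (idx a b e))) 6) 6) 6) 6 = true := by
  decide +kernel

/-- every sample is a graph in which every 5-set contains an edge -/
theorem gX_valid {c : V → V → V → Bool} (hc : Sys c) (X : Fin 6 → V) : Valid (gX c X) := by
  intro v hv
  obtain ⟨i, j, k, hij, hjk, h⟩ := hc.p5 (fun i => X ((fn v).succAbove i))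
  have m1 : (fn v).succAbove i < (fn v).succAbove j := (Fin.strictMono_succAbove _) hij
  have m2 : (fn v).succAbove j < (fn v).succAbove k := (Fin.strictMono_succAbove _) hjk
  have n1 := Fin.succAbove_ne (fn v) i
  have n2 := Fin.succAbove_ne (fn v) j
  have n3 := Fin.succAbove_ne (fn v) k
  generalize (fn v).succAbove i = a at *
  generalize (fn v).succAbove j = b at *
  generalize (fn v).succAbove k = e at *
  have m1' : a.val < b.val := m1
  have m2' : b.val < e.val := m2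
  have q (x : Fin 6) (hx : x ≠ fn v) : x.val ≠ v := fun hx' => hx (by rw [← hx', fn_fin])
  obtain ⟨e1, e2, e3, e4⟩ := idx_sorted m1' m2' e.isLt
  refine ⟨idx a.val b.val e.val, e4, ?_, ?_⟩
  · have h1 := (allN_iff _ _).1 ((allN_iff _ _).1 ((allN_iff _ _).1 ((allN_iff _ _).1 ckFS v hv) a.val a.isLt)
      b.val b.isLt) e.val e.isLt
    have f1 : Nat.ble (Nat.add a.val 1) b.val = true := Nat.ble_eq_true_of_le m1'
    have f2 : Nat.ble (Nat.add b.val 1) e.val = true := Nat.ble_eq_true_of_le m2'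
    have f3 (x : Fin 6) (hx : x ≠ fn v) : Nat.beq x.val v = false := by
      rw [Bool.eq_false_iff]; exact fun h => q x hx (Nat.eq_of_beq_eq_true h)
    rw [f1, f2, f3 a n1, f3 b n2, f3 e n3] at h1
    simpa using h1
  · rw [bt_gX _ _ _ e4, ← cidx_sorted c X m1' m2' e.isLt, fn_fin, fn_fin, fn_fin, h]
    rfl

end Pool.Agent.T53
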