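import Pool.Agent.Lib.MP_19b7b8_co_FA.ChkT
import Pool.Agent.Lib.MP_19b7b8_co_FA.ChkI1
import Pool.Agent.Lib.MP_19b7b8_co_FA.ChkI2
import Pool.Agent.Lib.MP_19b7b8_co_FA.ChkI3

/-!
# MP_19b7b8_co: invariance of the total of the blocks
-/

namespace Pool.Agent.T53

open Finset

theorem mem16 (t : ℕ) (ht : t < 16) :
    t ∈ [0, 1, 2, 3, 4, 5, 6, 7, 8, 9, 10, 11, 12, 13, 14, 15] := by
  simp only [List.mem_cons, List.not_mem_nil, or_false]
  omega

theorem mem4 (b : ℕ) (hb : b < 4) : b ∈ [0, 1, 2, 3] := by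
  simp only [List.mem_cons, List.not_mem_nil, or_false]
  omega

theorem ixb_eq (f' : ℕ) : ixb (f' / 16) (f' % 16) = f' := Nat.div_add_mod f' 16

theorem ckG_all (t f' : ℕ) (ht : t < 16) (hf' : f' < 64) : ckG1 t f' = true := by
  have h := (allN_iff _ _).1 (AllL_spec (AllL_spec ckG_l t (mem16 t ht)) (f' / 16) (mem4 _ (by omega)))
    (f' % 16) (Nat.mod_lt _ (by norm_num))
  rw [ixb_eq] at h
  exact h

theorem ckI_all (a t f' : ℕ) (ha : a < 4) (h0 : a ≠ 0) (ht : t < 16) (hf' : f' < 64) :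
    ckI1 a t f' = true := by
  have h : ckI a t (f' / 16) = true := by
    obtain h | h | h : a = 1 ∨ a = 2 ∨ a = 3 := by omega
    · subst h; exact AllL_spec (AllL_spec ckI1_l t (mem16 t ht)) (f' / 16) (mem4 _ (by omega))
    · subst h; exact AllL_spec (AllL_spec ckI2_l t (mem16 t ht)) (f' / 16) (mem4 _ (by omega))
    · subst h; exact AllL_spec (AllL_spec ckI3_l t (mem16 t ht)) (f' / 16) (mem4 _ (by omega))
  have h1 := (allN_iff _ _).1 h (f' % 16) (Nat.mod_lt _ (by norm_num))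
  rw [ixb_eq] at h1
  exact h1

/-- entries of the vectors -/
noncomputable def RV (t j f : ℕ) : ℤ := (rv t j f : ℤ) - 16384

theorem tt_eq' (t f f' : ℕ) (ht : t < 16) (hf : f < 64) :
    tt (t + 16 * f + 1024 * f') = tq f' (t + 16 * f) := tt_eq _ _ (by omega)

/-- the table is a Gram matrix -/
theorem gram4 (t f f' : ℕ) (ht : t < 16) (hf : f < 64) (hf' : f' < 64) :
    (tt (t + 16 * f + 1024 * f') : ℤ) = 268435456 + ∑ j ∈ range 7, RV t j f * RV t j f' := by
  have h := (allN_iff _ _).1 (ckG_all t f' ht hf') f hf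
  have h1 := Nat.eq_of_beq_eq_true h
  rw [sumN_eq, sumN_eq] at h1
  have h2 : (tq f' (t + 16 * f) + 16384 * ∑ j ∈ range 7, (rv t j f + rv t j f') : ℕ) =
      ∑ j ∈ range 7, rv t j f * rv t j f' + (1879048192 + 268435456) := h1
  rw [← tt_eq' t f f' ht hf] at h2
  have h3 : ((tt (t + 16 * f + 1024 * f') : ℕ) : ℤ) +
      16384 * ∑ j ∈ range 7, ((rv t j f : ℤ) + (rv t j f' : ℤ)) =
      ∑ j ∈ range 7, (rv t j f : ℤ) * (rv t j f' : ℤ) + (1879048192 + 268435456) := by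
    exact_mod_cast h2
  have h4 : ∑ j ∈ range 7, RV t j f * RV t j f' = ∑ j ∈ range 7, (rv t j f : ℤ) * (rv t j f' : ℤ) -
      16384 * ∑ j ∈ range 7, ((rv t j f : ℤ) + (rv t j f' : ℤ)) + 7 * 16384 ^ 2 := by
    simp only [RV, sum_range_succ, sum_range_zero]
    ring
  rw [h4]
  linarith

theorem h4_swap (t f f' : ℕ) (ht : t < 16) (hf : f < 64) (hf' : f' < 64) :
    tt (t + 16 * f + 1024 * f') = tt (t + 16 * f' + 1024 * f) := by
  have h1 := gram4 t f f' ht hf hf'
  have h2 := gram4 t f' f ht hf' hf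
  have h3 : ∑ j ∈ range 7, RV t j f * RV t j f' = ∑ j ∈ range 7, RV t j f' * RV t j f :=
    sum_congr rfl fun j _ => mul_comm _ _
  rw [h3, ← h2] at h1
  exact_mod_cast h1

/-! ### checks of positions -/

theorem ck_pos : (allN (fun i => Nat.ble (Nat.add (post i) 1) 20) 4 &&
    (allN (fun i => Nat.ble (Nat.add (posf i) 1) 20) 6 &&
    (allN (fun i => Nat.ble (Nat.add (posg i) 1) 20) 6 &&
    (allN (fun i => Nat.ble (Nat.add (pos8 i) 1) 20) 8 &&
     allN (fun i => Nat.ble (Nat.add (pos5 i) 1) 20) 5)))) = true := by decide +kernel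

theorem post_lt (i : ℕ) (hi : i < 4) : post i < 20 := by
  have h := ck_pos; simp only [Bool.and_eq_true] at h
  exact Nat.le_of_ble_eq_true ((allN_iff _ _).1 h.1 i hi)
theorem posf_lt (i : ℕ) (hi : i < 6) : posf i < 20 := by
  have h := ck_pos; simp only [Bool.and_eq_true] at h
  exact Nat.le_of_ble_eq_true ((allN_iff _ _).1 h.2.1 i hi)
theorem posg_lt (i : ℕ) (hi : i < 6) : posg i < 20 := by
  have h := ck_pos; simp only [Bool.and_eq_true] at h
  exact Nat.le_of_ble_eq_true ((allN_iff _ _).1 h.2.2.1 i hi)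
theorem pos8_lt (i : ℕ) (hi : i < 8) : pos8 i < 20 := by
  have h := ck_pos; simp only [Bool.and_eq_true] at h
  exact Nat.le_of_ble_eq_true ((allN_iff _ _).1 h.2.2.2.1 i hi)
theorem pos5_lt (i : ℕ) (hi : i < 5) : pos5 i < 20 := by
  have h := ck_pos; simp only [Bool.and_eq_true] at h
  exact Nat.le_of_ble_eq_true ((allN_iff _ _).1 h.2.2.2.2 i hi)

/-- check: `a i < m` and the symmetry moves the position `pos i` to `pos (a i)` -/
def ckP (r : ℕ) (pos a : ℕ → ℕ) (m : ℕ) (sl : ℕ → ℕ → ℕ) : Bool :=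
  allN (fun i => (Nat.ble (Nat.add (a i) 1) m) && (Nat.beq (sl r (pos i)) (pos (a i)))) m

theorem ckP_spec {r : ℕ} {pos a : ℕ → ℕ} {m : ℕ} (h : ckP r pos a m sel = true) :
    (∀ i < m, a i < m) ∧ ∀ i < m, sel r (pos i) = pos (a i) := by
  constructor
  · intro i hi
    have h1 := (allN_iff _ _).1 h i hi
    simp only [Bool.and_eq_true] at h1
    exact Nat.le_of_ble_eq_true h1.1
  · intro i hi
    have h1 := (allN_iff _ _).1 h i hi
    simp only [Bool.and_eq_true] at h1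
    exact Nat.eq_of_beq_eq_true h1.2

theorem ckP4 : allN (fun a => ckP (r4 a) post (at4 a) 4 sel && (ckP (r4 a) posf (af4 a) 6 sel &&
    ckP (r4 a) posg (af4 a) 6 sel)) 4 = true := by decide +kernel

theorem ckP4s : (allN (fun i => Nat.beq (sel (r4 4) (post i)) (post i)) 4 &&
    (allN (fun i => Nat.beq (sel (r4 4) (posf i)) (posg i)) 6 &&
     allN (fun i => Nat.beq (sel (r4 4) (posg i)) (posf i)) 6)) = true := by decide +kernel

/-- permutation of the bits -/
noncomputable def a8 (a i : ℕ) : ℕ := dg 4 A8 (Nat.add (Nat.mul 8 a) i)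
/-- permutation of the bits -/
noncomputable def a5 (a i : ℕ) : ℕ := dg 4 A5 (Nat.add (Nat.mul 5 a) i)

theorem ckP2 : allN (fun a => ckP (r2 a) pos8 (a8 a) 8 sel &&
    allN (fun c => Nat.beq (dg 32 T2 (pm (a8 a) 8 c)) (dg 32 T2 c)) 256) 5 = true := by decide +kernel

theorem ckP1 : allN (fun a => ckP (r1 a) pos5 (a5 a) 5 sel &&
    allN (fun c => Nat.beq (dg 32 T1 (pm (a5 a) 5 c)) (dg 32 T1 c)) 32) 4 = true := by decide +kernel

theorem h2_act (a : ℕ) (ha : a < 5) (g : ℕ) : h2 (act (r2 a) g) = h2 g := by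
  have h := (allN_iff _ _).1 ckP2 a ha
  simp only [Bool.and_eq_true] at h
  obtain ⟨h1, h2'⟩ := ckP_spec h.1
  unfold h2
  rw [code_act_pm pos8 (a8 a) 8 (r2 a) g pos8_lt h1 h2']
  exact Nat.eq_of_beq_eq_true ((allN_iff _ _).1 h.2 _ (code_lt _ _ _))

theorem h1_act (a : ℕ) (ha : a < 4) (g : ℕ) : h1 (act (r1 a) g) = h1 g := by
  have h := (allN_iff _ _).1 ckP1 a ha
  simp only [Bool.and_eq_true] at h
  obtain ⟨h1', h2'⟩ := ckP_spec h.1
  unfold h1
  rw [code_act_pm pos5 (a5 a) 5 (r1 a) g pos5_lt h1' h2']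
  exact Nat.eq_of_beq_eq_true ((allN_iff _ _).1 h.2 _ (code_lt _ _ _))

theorem pm_at0 (m c : ℕ) (a : ℕ → ℕ) (ha : ∀ i < m, a i = i) (hc : c < 2 ^ m) : pm a m c = c := by
  unfold pm
  rw [mk_congr (b' := bt c) fun i hi => by rw [ha i hi]]
  exact mk_bt m c hc

theorem ckA0 : (allN (fun i => Nat.beq (at4 0 i) i) 4 && allN (fun i => Nat.beq (af4 0 i) i) 6) = true := by
  decide +kernel

theorem h4_act (a : ℕ) (ha : a < 5) (g : ℕ) : h4 (act (r4 a) g) = h4 g := by
  unfold h4 code16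
  rcases Nat.lt_succ_iff_lt_or_eq.1 ha with h | h
  · have h' := (allN_iff _ _).1 ckP4 a h
    simp only [Bool.and_eq_true] at h'
    obtain ⟨t1, t2⟩ := ckP_spec h'.1
    obtain ⟨f1, f2⟩ := ckP_spec h'.2.1
    obtain ⟨g1, g2⟩ := ckP_spec h'.2.2
    rw [code_act_pm post (at4 a) 4 (r4 a) g post_lt t1 t2,
      code_act_pm posf (af4 a) 6 (r4 a) g posf_lt f1 f2,
      code_act_pm posg (af4 a) 6 (r4 a) g posg_lt g1 g2]
    have ht := code_lt post 4 g
    have hf := code_lt posf 6 g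
    have hg := code_lt posg 6 g
    generalize code post 4 g = t at *
    generalize code posf 6 g = f at *
    generalize code posg 6 g = f' at *
    by_cases h0 : a = 0
    · subst h0
      have hA := ckA0
      simp only [Bool.and_eq_true] at hA
      rw [pm_at0 4 t _ (fun i hi => Nat.eq_of_beq_eq_true ((allN_iff _ _).1 hA.1 i hi)) ht,
        pm_at0 6 f _ (fun i hi => Nat.eq_of_beq_eq_true ((allN_iff _ _).1 hA.2 i hi)) hf,
        pm_at0 6 f' _ (fun i hi => Nat.eq_of_beq_eq_true ((allN_iff _ _).1 hA.2 i hi)) hg]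
    · have hI := (allN_iff _ _).1 (ckI_all a t f' h h0 ht hg) f hf
      have hI' : tq (pm (af4 a) 6 f') (pm (at4 a) 4 t + 16 * pm (af4 a) 6 f) =
        tq f' (t + 16 * f) := Nat.eq_of_beq_eq_true hI
      have b1 : pm (at4 a) 4 t < 16 := mk_lt _ _ fun _ _ => bt_lt _ _
      have b2 : pm (af4 a) 6 f < 64 := mk_lt _ _ fun _ _ => bt_lt _ _
      rw [tt_eq' _ _ _ b1 b2, tt_eq' _ _ _ ht hf]
      exact hI'
  · subst h
    have hs := ckP4s
    simp only [Bool.and_eq_true] at hs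
    have e1 : code post 4 (act (r4 4) g) = code post 4 g := by
      rw [code_act _ _ _ _ post_lt]
      exact mk_congr fun i hi => by rw [Nat.eq_of_beq_eq_true ((allN_iff _ _).1 hs.1 i hi)]
    have e2 : code posf 6 (act (r4 4) g) = code posg 6 g := by
      rw [code_act _ _ _ _ posf_lt]
      exact mk_congr fun i hi => by rw [Nat.eq_of_beq_eq_true ((allN_iff _ _).1 hs.2.1 i hi)]
    have e3 : code posg 6 (act (r4 4) g) = code posf 6 g := by
      rw [code_act _ _ _ _ posg_lt]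
      exact mk_congr fun i hi => by rw [Nat.eq_of_beq_eq_true ((allN_iff _ _).1 hs.2.2 i hi)]
    rw [e1, e2, e3]
    exact h4_swap _ _ _ (code_lt _ _ _) (code_lt _ _ _) (code_lt _ _ _)

theorem FF_act {s : ℕ} (hs : s < 5) (g : ℕ) : FF (act (pg s) g) = FF g := by
  unfold FF
  rw [blk_act h4 p4 r4 15 ka4 5 h4_act s (ckB_spec ckB4 s hs) g,
    blk_act h2 p2 r2 45 ka2 5 h2_act s (ckB_spec ckB2 s hs) g,
    blk_act h1 p1 r1 60 ka1 4 h1_act s (ckB_spec ckB1 s hs) g]

end Pool.Agent.T53
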